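import Pool.Agent.MP_9e8696_an.H8.Defs

/-!
Greedy selection of a heavy disjoint subfamily.
-/

set_option linter.unusedSectionVars false

namespace Pool.Agent.MP_9e8696_an.H8

open Finset H67
open scoped BigOperators

variable {ι : Type*} [Fintype ι] [DecidableEq ι]

lemma greedy (B : ι → Finset ι) (w : ι → ℝ) (hw : ∀ j, 0 ≤ w j) (p q : ℝ) (J : Finset ι)
    (hne : ∀ j ∈ J, j ∈ B j) (hp : ∀ j ∈ J, ((B j).card : ℝ) ≤ p)
    (hq : ∀ i, ((J.filter fun j => i ∈ B j).card : ℝ) ≤ q) :
    ∃ J' ⊆ J, (∀ j ∈ J', ∀ k ∈ J', j ≠ k → Disjoint (B j) (B k)) ∧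
      ∑ j ∈ J, w j ≤ p * q * ∑ j ∈ J', w j := by
  induction J using Finset.strongInduction with
  | H J ih =>
    rcases J.eq_empty_or_nonempty with rfl | hJ
    · exact ⟨∅, Subset.rfl, by simp, by simp⟩
    obtain ⟨j, hj, hmax⟩ := exists_max_image J w hJ
    have hjj : ¬Disjoint (B j) (B j) := fun h => disjoint_left.1 h (hne j hj) (hne j hj)
    have hsub : J.filter (fun k => Disjoint (B j) (B k)) ⊆ J := filter_subset _ _
    obtain ⟨K, hK, hd, hs⟩ := ih (J.filter fun k => Disjoint (B j) (B k))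
      (filter_ssubset.2 ⟨j, hj, hjj⟩) (fun k hk => hne k (hsub hk)) (fun k hk => hp k (hsub hk))
      fun i => (Nat.cast_le.2 (card_le_card (filter_subset_filter _ hsub))).trans (hq i)
    have hjK : j ∉ K := fun h => hjj (mem_filter.1 (hK h)).2
    have hq0 : 0 ≤ q := (Nat.cast_nonneg _).trans (hq j)
    have hc : ((J.filter fun k => ¬Disjoint (B j) (B k)).card : ℝ) ≤ p * q := by
      have h1 : (J.filter fun k => ¬Disjoint (B j) (B k)) ⊆
          (B j).biUnion fun i => J.filter fun k => i ∈ B k := fun k hk => by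
        obtain ⟨i, hi, hi'⟩ := not_disjoint_iff.1 (mem_filter.1 hk).2
        exact mem_biUnion.2 ⟨i, hi, mem_filter.2 ⟨(mem_filter.1 hk).1, hi'⟩⟩
      refine (Nat.cast_le.2 ((card_le_card h1).trans card_biUnion_le)).trans ?_
      push_cast
      refine (sum_le_card_nsmul _ _ q fun i _ => hq i).trans ?_
      rw [nsmul_eq_mul]
      exact mul_le_mul_of_nonneg_right (hp j hj) hq0
    refine ⟨insert j K, insert_subset hj (hK.trans hsub), fun a ha b hb hab => ?_, ?_⟩
    · rcases mem_insert.1 ha with rfl | ha' <;> rcases mem_insert.1 hb with rfl | hb'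
      · exact absurd rfl hab
      · exact (mem_filter.1 (hK hb')).2
      · exact (mem_filter.1 (hK ha')).2.symm
      · exact hd a ha' b hb' hab
    · rw [sum_insert hjK, ← sum_filter_add_sum_filter_not J fun k => Disjoint (B j) (B k)]
      have h2 := sum_le_card_nsmul (J.filter fun k => ¬Disjoint (B j) (B k)) w (w j)
        fun k hk => hmax k (mem_filter.1 hk).1
      rw [nsmul_eq_mul] at h2
      linarith [mul_le_mul_of_nonneg_right hc (hw j)]

end Pool.Agent.MP_9e8696_an.H8
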