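import Mathlib
import Pool.Agent.MP_9e8696_an.H67.Final

/-!
Definitions for the quasi-polynomial influence bound.
-/

namespace Pool.Agent.MP_9e8696_an.H8

open Finset H67
open scoped BigOperators

variable {ι : Type*} [Fintype ι] [DecidableEq ι]

/-- Coefficients after fixing the coordinate `i` to the value `s`. -/
def res (i : ι) (s : ℝ) (e : Finset ι → ℝ) (T : Finset ι) : ℝ := del {i} e T + s * sh {i} e T

/-- Covariance of the coordinate `i` with the square of the polynomial. -/
def gam (e : Finset ι → ℝ) (i : ι) : ℝ := 2 * ∑ T, del {i} e T * sh {i} e T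

/-- Mean of the coordinate `i` under the measure with density proportional to the square. -/
noncomputable def dl (e : Finset ι → ℝ) (i : ι) : ℝ := gam e i / nrm e

/-- The potential: sum of the influences to the power `1 + β`. -/
noncomputable def Psi (β : ℝ) (a : Finset ι → ℝ) : ℝ := ∑ j, inf a j ^ (1 + β)

/-- Second moment under independent coordinates with means `b` and variances `ω`. -/
def Qm (e : Finset ι → ℝ) (b ω : ι → ℝ) : ℝ := ∑ T, tc e b T ^ 2 * ∏ i ∈ T, ω i

/-- Second moment under the product measure on the cube with means `b`. -/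
def Qb (e : Finset ι → ℝ) (b : ι → ℝ) : ℝ := Qm e b fun i => 1 - b i ^ 2

/-- Expectation under a product weight. -/
def Ep {κ : Type*} [Fintype κ] (π : ι → κ → ℝ) (G : (ι → κ) → ℝ) : ℝ :=
  ∑ x : ι → κ, (∏ i, π i (x i)) * G x

/-- The constant of the boost lemma. -/
def Kb (d V lam : ℝ) : ℝ := (d * lam ^ 2 + 1) * (V * lam ^ 2 + 1) * (44 * d ^ 2 * lam ^ 2 * V)

end Pool.Agent.MP_9e8696_an.H8
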