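import Mathlib
import Pool.Agent.MP_9e8696_an.H8.Defs

/-!
Fixing one coordinate: effect on norms and influences.
-/

set_option linter.unusedSectionVars false

namespace Pool.Agent.MP_9e8696_an.H8

open Finset H67
open scoped BigOperators

variable {ι : Type*} [Fintype ι] [DecidableEq ι]

lemma F_update_eq (e : Finset ι → ℝ) (w : ι → ℝ) (i : ι) (s : ℝ) :
    F e (Function.update w i s) = F (del {i} e) w + s * F (sh {i} e) w := by
  rw [F_sh]
  unfold F
  rw [mul_sum, ← sum_add_distrib]
  refine sum_congr rfl fun S _ => ?_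
  by_cases hi : i ∈ S
  · have : ¬ Disjoint S {i} := by simp [hi]
    simp only [del, this, if_false, singleton_subset_iff, hi, if_true, prod_update_of_mem hi]
    ring
  · have : Disjoint S {i} := by simp [hi]
    simp only [del, this, if_true, singleton_subset_iff, hi, if_false,
      prod_update_of_notMem hi]
    ring

lemma F_res (i : ι) (s : ℝ) (e : Finset ι → ℝ) (w : ι → ℝ) :
    F (res i s e) w = F e (Function.update w i s) := by
  rw [F_update_eq]
  unfold F res
  rw [mul_sum, ← sum_add_distrib]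
  exact sum_congr rfl fun S _ => by ring

lemma F_update_sub (e : Finset ι → ℝ) (w : ι → ℝ) (j : ι) (s t : ℝ) :
    F e (Function.update w j s) - F e (Function.update w j t) = (s - t) * F (sh {j} e) w := by
  rw [F_update_eq, F_update_eq]; ring

lemma abs_update_le (w : ι → ℝ) (hw : ∀ i, |w i| ≤ 1) (j : ι) (s : ℝ) (hs : |s| ≤ 1) (i : ι) :
    |Function.update w j s i| ≤ 1 := by
  by_cases h : i = j
  · subst h; simpa using hs
  · simpa [h] using hw i

lemma abs_F_sh_le {a : Finset ι → ℝ} (hb : Bdd a) (j : ι) (w : ι → ℝ) (hw : ∀ i, |w i| ≤ 1) :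
    |F (sh {j} a) w| ≤ 1 := by
  have h := F_update_sub a w j 1 (-1)
  have h1 := abs_le.1 (hb _ (abs_update_le w hw j 1 (by simp)))
  have h2 := abs_le.1 (hb _ (abs_update_le w hw j (-1) (by simp)))
  rw [abs_le]
  constructor <;> linarith [h1.1, h1.2, h2.1, h2.2]

lemma degLe_res {e : Finset ι → ℝ} {d : ℕ} (he : DegLe e d) (i : ι) (s : ℝ) :
    DegLe (res i s e) d := by
  intro T hT
  unfold res
  rw [he.del {i} T hT, he.sh {i} T hT]
  simp

lemma bdd_res {e : Finset ι → ℝ} (hb : Bdd e) (i : ι) (s : ℝ) (hs : |s| ≤ 1) :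
    Bdd (res i s e) := by
  intro w hw
  rw [F_res]
  exact hb _ (abs_update_le w hw i s hs)

lemma inf_res_self (i : ι) (s : ℝ) (a : Finset ι → ℝ) : inf (res i s a) i = 0 := by
  rw [inf_eq]
  refine sum_eq_zero fun S _ => ?_
  split_ifs with h
  · have : ¬ Disjoint S {i} := by simp [h]
    simp [res, del, sh, this]
  · rfl

lemma sh_res (i j : ι) (hij : i ≠ j) (s : ℝ) (a : Finset ι → ℝ) :
    sh {j} (res i s a) = res i s (sh {j} a) := by
  funext T
  by_cases hj : j ∈ T
  · have h1 : ¬ Disjoint T {j} := by simp [hj]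
    have h2 : ¬ Disjoint (T ∪ {i}) {j} := by simp [hj]
    simp only [res, del, sh, h1, h2, if_false, ite_self, mul_zero, add_zero]
  · have h1 : Disjoint T {j} := by simp [hj]
    have h2 : Disjoint (T ∪ {i}) {j} := by simp [hj, hij.symm]
    by_cases hi : i ∈ T
    · have h3 : ¬ Disjoint T {i} := by simp [hi]
      have h4 : ¬ Disjoint (T ∪ {j}) {i} := by simp [hi]
      simp only [res, del, sh, h1, h3, h4, if_false, if_true, mul_zero, add_zero]
    · have h3 : Disjoint T {i} := by simp [hi]
      have h4 : Disjoint (T ∪ {j}) {i} := by simp [hi, hij]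
      have h5 : T ∪ {j} ∪ {i} = T ∪ {i} ∪ {j} := by
        ext k; simp only [mem_union, mem_singleton]; tauto
      simp only [res, del, sh, h1, h2, h3, h4, if_true, h5]

lemma nrm_split (i : ι) (e : Finset ι → ℝ) : nrm e = nrm (del {i} e) + nrm (sh {i} e) := by
  rw [nrm_sh]
  unfold nrm
  rw [← sum_add_distrib]
  refine sum_congr rfl fun S _ => ?_
  by_cases hi : i ∈ S
  · have : ¬ Disjoint S {i} := by simp [hi]
    simp [del, this, hi]
  · have : Disjoint S {i} := by simp [hi]
    simp [del, this, hi]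

lemma nrm_res (i : ι) (s : ℝ) (hs : s ^ 2 = 1) (e : Finset ι → ℝ) :
    nrm (res i s e) = nrm e + s * gam e i := by
  rw [nrm_split i e]
  unfold nrm gam res
  rw [mul_sum, mul_sum, ← sum_add_distrib, ← sum_add_distrib]
  refine sum_congr rfl fun T _ => ?_
  linear_combination (sh {i} e T) ^ 2 * hs

lemma gam_sq_le (e : Finset ι → ℝ) (i : ι) :
    gam e i ^ 2 ≤ 4 * (nrm (del {i} e) * nrm (sh {i} e)) := by
  unfold gam nrm
  have := sum_mul_sq_le_sq_mul_sq univ (del {i} e) (sh {i} e)
  nlinarith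

lemma abs_gam_le (e : Finset ι → ℝ) (i : ι) : |gam e i| ≤ nrm e := by
  have h := gam_sq_le e i
  have h1 := nrm_nonneg (del {i} e)
  have h2 := nrm_nonneg (sh {i} e)
  rw [nrm_split i e]
  apply abs_le_of_sq_le_sq _ (by linarith)
  nlinarith [sq_nonneg (nrm (del {i} e) - nrm (sh {i} e))]

lemma nrm_mul_dl (e : Finset ι → ℝ) (i : ι) : nrm e * dl e i = gam e i := by
  unfold dl
  rcases (nrm_nonneg e).eq_or_lt with h | h
  · have := abs_gam_le e i
    rw [← h] at this ⊢
    have h0 : gam e i = 0 := abs_nonpos_iff.1 this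
    simp [h0]
  · field_simp

lemma inf_res (i j : ι) (hij : i ≠ j) (s : ℝ) (hs : s ^ 2 = 1) (a : Finset ι → ℝ) :
    inf (res i s a) j = inf a j * (1 + s * dl (sh {j} a) i) := by
  unfold H67.inf
  rw [sh_res i j hij, nrm_res i s hs, ← nrm_mul_dl]
  ring

lemma abs_dl_le (e : Finset ι → ℝ) (i : ι) : |dl e i| ≤ 1 := by
  unfold dl
  rw [abs_div, abs_of_nonneg (nrm_nonneg e)]
  exact div_le_one_of_le₀ (abs_gam_le e i) (nrm_nonneg e)

lemma dl_sq_le (e : Finset ι → ℝ) (i : ι) : nrm e * dl e i ^ 2 ≤ 4 * inf e i := by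
  have h2 := nrm_nonneg (sh {i} e)
  unfold H67.inf
  rcases (nrm_nonneg e).eq_or_lt with h | h
  · rw [← h]; linarith
  · have h1 := gam_sq_le e i
    have h3 := nrm_split i e
    have h4 := nrm_mul_dl e i
    refine le_of_mul_le_mul_left ?_ h
    have h5 : nrm e * (nrm e * dl e i ^ 2) = gam e i ^ 2 := by rw [← h4]; ring
    rw [h5]
    nlinarith

lemma dl_self (a : Finset ι → ℝ) (j : ι) : dl (sh {j} a) j = 0 := by
  unfold dl gam
  rw [sh_singleton_sh]
  simp

lemma col_bound {a : Finset ι → ℝ} {d : ℕ} (ha : DegLe a d) (i : ι) :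
    ∑ j, inf a j * dl (sh {j} a) i ^ 2 ≤ 4 * d * inf a i := by
  have h1 : ∀ j, inf a j * dl (sh {j} a) i ^ 2 ≤ 4 * inf (sh {i} a) j := by
    intro j
    have h := dl_sq_le (sh {j} a) i
    have e : inf (sh {j} a) i = inf (sh {i} a) j := by
      rw [inf_sh, inf_sh]
      by_cases hij : i = j
      · subst hij; rfl
      · have h3 : ¬ j = i := fun h => hij h.symm
        simp only [mem_singleton, hij, h3, if_false]
        congr 1
        ext k; simp only [mem_insert, mem_singleton]; tauto
    rw [← e]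
    exact h
  refine (sum_le_sum fun j _ => h1 j).trans ?_
  rw [← mul_sum, mul_assoc]
  exact mul_le_mul_of_nonneg_left (sum_inf_le _ d (ha.sh {i})) (by norm_num)

lemma row_bound {a : Finset ι → ℝ} {d : ℕ} (ha : DegLe a d) (j : ι) :
    ∑ i, dl (sh {j} a) i ^ 2 ≤ 4 * d := by
  rcases (nrm_nonneg (sh {j} a)).eq_or_lt with h | h
  · have : ∀ i, dl (sh {j} a) i = 0 := fun i => by unfold dl; rw [← h]; simp
    simp only [this]
    simp
  · refine le_of_mul_le_mul_left ?_ h
    rw [mul_sum]
    refine (sum_le_sum fun i _ => dl_sq_le (sh {j} a) i).trans ?_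
    rw [← mul_sum]
    have := sum_inf_le _ d (ha.sh {j})
    nlinarith

lemma weight_step (h : ℕ → ℝ) (e : Finset ι → ℝ) :
    ∑ i, (∑ T, h T.card * res i 1 e T ^ 2 + ∑ T, h T.card * res i (-1) e T ^ 2) / 2 =
      ∑ T, (((Fintype.card ι : ℝ) - T.card) * h T.card + T.card * h (T.card - 1)) * e T ^ 2 := by
  have h1 : ∀ i, (∑ T, h T.card * res i 1 e T ^ 2 + ∑ T, h T.card * res i (-1) e T ^ 2) / 2 =
      ∑ T, ((if i ∈ T then 0 else h T.card * e T ^ 2) +
        (if i ∈ T then h (T.card - 1) * e T ^ 2 else 0)) := by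
    intro i
    have h2 : ∑ T : Finset ι, h T.card * sh {i} e T ^ 2 =
        ∑ T, if i ∈ T then h (T.card - 1) * e T ^ 2 else 0 := by
      have h3 := sum_sh {i} (fun S R => h R.card * e S ^ 2)
      simp only [singleton_subset_iff] at h3
      calc ∑ T : Finset ι, h T.card * sh {i} e T ^ 2
          = ∑ R, if Disjoint R {i} then h R.card * e (R ∪ {i}) ^ 2 else 0 := by
            refine sum_congr rfl fun T _ => ?_
            unfold sh
            split_ifs <;> simp
        _ = ∑ S, if i ∈ S then h (S \ {i}).card * e S ^ 2 else 0 := h3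
        _ = _ := by
            refine sum_congr rfl fun S _ => ?_
            split_ifs with hi
            · rw [sdiff_singleton_eq_erase, card_erase_of_mem hi]
            · rfl
    rw [sum_add_distrib, ← h2, ← sum_add_distrib, ← sum_add_distrib, sum_div]
    refine sum_congr rfl fun T _ => ?_
    unfold res
    have h4 : del {i} e T ^ 2 = if i ∈ T then 0 else e T ^ 2 := by
      unfold del
      by_cases hi : i ∈ T
      · have : ¬ Disjoint T {i} := by simp [hi]
        simp [this, hi]
      · have : Disjoint T {i} := by simp [hi]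
        simp [this, hi]
    have h5 : (if i ∈ T then 0 else h T.card * e T ^ 2) = h T.card * del {i} e T ^ 2 := by
      rw [h4]; split_ifs <;> simp
    rw [h5]; ring
  simp only [h1]
  rw [sum_comm]
  refine sum_congr rfl fun T _ => ?_
  rw [sum_add_distrib, sum_ite, sum_ite]
  have e1 : univ.filter (fun i => i ∈ T) = T := by ext i; simp
  have e2 : univ.filter (fun i => ¬ i ∈ T) = Tᶜ := by ext i; simp
  simp only [e1, e2, sum_const_zero, sum_const, nsmul_eq_mul, card_compl]
  rw [Nat.cast_sub (card_le_univ T)]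
  ring

end Pool.Agent.MP_9e8696_an.H8
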