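import Mathlib
import Pool.Agent.MP_9e8696_an.H8.Res

/-!
Second moments under product measures and the Jensen boost.
-/

set_option linter.unusedSectionVars false

namespace Pool.Agent.MP_9e8696_an.H8

open Finset H67
open scoped BigOperators

variable {ι : Type*} [Fintype ι] [DecidableEq ι]

lemma Ep_prod {κ : Type*} [Fintype κ] (π g : ι → κ → ℝ) :
    ∑ x : ι → κ, (∏ i, π i (x i)) * ∏ i, g i (x i) = ∏ i, ∑ k, π i k * g i k := by
  rw [Finset.prod_univ_sum, Fintype.piFinset_univ]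
  exact sum_congr rfl fun x _ => by rw [← prod_mul_distrib]

lemma Ep_sq {κ : Type*} [Fintype κ] (π ζ : ι → κ → ℝ) (b ω : ι → ℝ)
    (h1 : ∀ i, ∑ k, π i k = 1) (hb : ∀ i, ∑ k, π i k * ζ i k = b i)
    (hω : ∀ i, ∑ k, π i k * (ζ i k - b i) ^ 2 = ω i) (e : Finset ι → ℝ) :
    Ep π (fun x => F e (fun i => ζ i (x i)) ^ 2) = Qm e b ω := by
  have h0 : ∀ i, ∑ k, π i k * (ζ i k - b i) = 0 := by
    intro i
    simp only [mul_sub, sum_sub_distrib, ← sum_mul, h1, hb]
    ring
  have key : ∀ S T : Finset ι, ∑ x : ι → κ, (∏ i, π i (x i)) *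
      ((∏ i ∈ S, (ζ i (x i) - b i)) * ∏ i ∈ T, (ζ i (x i) - b i)) =
      if S = T then ∏ i ∈ S, ω i else 0 := by
    intro S T
    have e1 : ∀ x : ι → κ, (∏ i ∈ S, (ζ i (x i) - b i)) * ∏ i ∈ T, (ζ i (x i) - b i) =
        ∏ i, ((if i ∈ S then ζ i (x i) - b i else 1) * if i ∈ T then ζ i (x i) - b i else 1) := by
      intro x
      rw [prod_mul_distrib, prod_ite_mem, prod_ite_mem, univ_inter, univ_inter]
    simp only [e1]
    rw [Ep_prod π fun i k =>
      (if i ∈ S then ζ i k - b i else 1) * if i ∈ T then ζ i k - b i else 1]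
    split_ifs with hST
    · subst hST
      rw [← univ_inter S, ← prod_ite_mem, univ_inter]
      refine prod_congr rfl fun i _ => ?_
      by_cases hi : i ∈ S
      · simp only [hi, if_true, ← sq, hω]
      · simp only [hi, if_false, mul_one, h1]
    · obtain ⟨i, hi⟩ : ∃ i, ¬ (i ∈ S ↔ i ∈ T) := by
        by_contra hc
        push Not at hc
        exact hST (Finset.ext hc)
      refine prod_eq_zero (mem_univ i) ?_
      by_cases h2 : i ∈ S
      · have h3 : i ∉ T := fun h => hi ⟨fun _ => h, fun _ => h2⟩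
        simp only [h2, h3, if_true, if_false, mul_one, h0]
      · have h3 : i ∈ T := by
          by_contra h
          exact hi ⟨fun h' => absurd h' h2, fun h' => absurd h' h⟩
        simp only [h2, h3, if_true, if_false, one_mul, h0]
  have e2 : ∀ x : ι → κ, (∏ i, π i (x i)) * F e (fun i => ζ i (x i)) ^ 2 =
      ∑ S, ∑ T, tc e b S * tc e b T * ((∏ i, π i (x i)) *
        ((∏ i ∈ S, (ζ i (x i) - b i)) * ∏ i ∈ T, (ζ i (x i) - b i))) := by
    intro x
    have h2 := taylor e b fun i => ζ i (x i) - b i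
    simp only [add_sub_cancel] at h2
    rw [h2, F, sq, sum_mul_sum, mul_sum]
    refine sum_congr rfl fun S _ => ?_
    rw [mul_sum]
    exact sum_congr rfl fun T _ => by ring
  unfold Ep Qm
  simp only [e2]
  rw [sum_comm]
  refine sum_congr rfl fun S _ => ?_
  rw [sum_comm]
  simp only [← mul_sum, key, mul_ite, mul_zero, sum_ite_eq, mem_univ, if_true]
  ring

lemma Qb_le {e : Finset ι → ℝ} {d : ℕ} (hd : 1 ≤ d) (he : DegLe e d) (b ω : ι → ℝ)
    (hb : ∀ i, |b i| ≤ 1) (hω : ∀ i, (1 - 3 / (4 * (d : ℝ))) * (1 - b i ^ 2) ≤ ω i) :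
    Qb e b ≤ 4 * Qm e b ω := by
  unfold Qb Qm
  rw [mul_sum]
  refine sum_le_sum fun T _ => ?_
  by_cases hT : d < T.card
  · simp [he.tc b T hT]
  have hd' : (1 : ℝ) ≤ d := by exact_mod_cast hd
  have hT' : (T.card : ℝ) ≤ d := by exact_mod_cast not_lt.1 hT
  have hq : 3 / (4 * (d : ℝ)) ≤ 3 / 4 := by
    apply div_le_div_of_nonneg_left <;> linarith
  have hb' : ∀ i, 0 ≤ 1 - b i ^ 2 := fun i => by
    have := (sq_le_one_iff_abs_le_one (b i)).2 (hb i)
    linarith
  have h1 : (1 / 4 : ℝ) ≤ (1 - 3 / (4 * (d : ℝ))) ^ T.card := by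
    have h2 := one_add_mul_le_pow (a := -(3 / (4 * (d : ℝ)))) (by linarith) T.card
    have h3 : (T.card : ℝ) * (3 / (4 * (d : ℝ))) ≤ 3 / 4 := by
      rw [← mul_div_assoc, div_le_div_iff₀ (by linarith) (by norm_num)]
      linarith
    rw [← sub_eq_add_neg] at h2
    linarith
  have h2 : ∏ i ∈ T, ((1 - 3 / (4 * (d : ℝ))) * (1 - b i ^ 2)) ≤ ∏ i ∈ T, ω i :=
    prod_le_prod (fun i _ => mul_nonneg (by linarith) (hb' i)) fun i _ => hω i
  rw [prod_mul_distrib, prod_const] at h2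
  have h3 : 0 ≤ ∏ i ∈ T, (1 - b i ^ 2) := prod_nonneg fun i _ => hb' i
  have h4 : ∏ i ∈ T, (1 - b i ^ 2) ≤ 4 * ∏ i ∈ T, ω i := by nlinarith
  calc tc e b T ^ 2 * ∏ i ∈ T, (1 - b i ^ 2) ≤ tc e b T ^ 2 * (4 * ∏ i ∈ T, ω i) :=
        mul_le_mul_of_nonneg_left h4 (sq_nonneg _)
    _ = _ := by ring

lemma exp_le_one_add (u : ℝ) (hu : |u| ≤ 1 / 2) : Real.exp (u - 2 * u ^ 2) ≤ 1 + u := by
  have h1 := Real.add_one_le_exp (-(u - 2 * u ^ 2))
  have h2 : Real.exp (u - 2 * u ^ 2) * Real.exp (-(u - 2 * u ^ 2)) = 1 := by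
    rw [← Real.exp_add, add_neg_cancel, Real.exp_zero]
  have h3 := Real.exp_pos (u - 2 * u ^ 2)
  have h4 := (abs_le.1 hu).1
  have h5 : 0 < 1 - u + 2 * u ^ 2 := by nlinarith [sq_nonneg (u - 1 / 4)]
  have h6 : Real.exp (u - 2 * u ^ 2) * (1 - u + 2 * u ^ 2) ≤ 1 := by nlinarith
  have h7 : 1 ≤ (1 + u) * (1 - u + 2 * u ^ 2) := by
    nlinarith [mul_nonneg (sq_nonneg u) (by linarith : 0 ≤ 1 + 2 * u)]
  exact le_of_mul_le_mul_right (h6.trans h7) h5

lemma F_sg (e : Finset ι → ℝ) (x : ι → Bool) :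
    F e (fun i => sg (x i)) = ∑ S, e S * chi S x := rfl

lemma expect_F_mul (c c' : Finset ι → ℝ) :
    𝔼 x : ι → Bool, F c (fun i => sg (x i)) * F c' (fun i => sg (x i)) = ∑ S, c S * c' S := by
  have : ∀ x : ι → Bool, F c (fun i => sg (x i)) * F c' (fun i => sg (x i)) =
      ∑ S, ∑ T, c S * c' T * (chi S x * chi T x) := by
    intro x
    rw [F_sg, F_sg, sum_mul_sum]
    exact sum_congr rfl fun S _ => sum_congr rfl fun T _ => by ring
  simp only [this, expect_sum_comm, ← mul_expect, expect_chi_mul]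
  simp

lemma F_flip (c : Finset ι → ℝ) (i : ι) (hc : ∀ S, i ∈ S → c S = 0) (x : ι → Bool) :
    F c (fun j => sg (flipAt i x j)) = F c (fun j => sg (x j)) := by
  rw [F_sg, F_sg]
  refine sum_congr rfl fun S _ => ?_
  by_cases hi : i ∈ S
  · simp [hc S hi]
  · rw [chi_flipAt S i hi]

lemma expect_sg_sq (e : Finset ι → ℝ) (i : ι) :
    𝔼 x : ι → Bool, sg (x i) * F e (fun j => sg (x j)) ^ 2 = gam e i := by
  have h1 : ∀ x : ι → Bool, sg (x i) * F e (fun j => sg (x j)) ^ 2 =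
      sg (x i) * (F (del {i} e) (fun j => sg (x j)) ^ 2 + F (sh {i} e) (fun j => sg (x j)) ^ 2) +
        2 * (F (del {i} e) (fun j => sg (x j)) * F (sh {i} e) (fun j => sg (x j))) := by
    intro x
    have h2 := F_update_eq e (fun j => sg (x j)) i (sg (x i))
    rw [Function.update_eq_self i fun j => sg (x j)] at h2
    rw [h2]
    have h3 := sg_sq (x i)
    linear_combination (2 * F (del {i} e) (fun j => sg (x j)) * F (sh {i} e) (fun j => sg (x j)) +
      sg (x i) * F (sh {i} e) (fun j => sg (x j)) ^ 2) * h3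
  have h2 := expect_flip i fun x => sg (x i) *
    (F (del {i} e) (fun j => sg (x j)) ^ 2 + F (sh {i} e) (fun j => sg (x j)) ^ 2)
  have hd : ∀ S, i ∈ S → del {i} e S = 0 := fun S hS => by simp [del, hS]
  have hs : ∀ S, i ∈ S → sh {i} e S = 0 := fun S hS => by simp [sh, hS]
  have h3 : ∀ x : ι → Bool, sg (flipAt i x i) = -sg (x i) := fun x => by
    simp [flipAt, sg_not]
  simp only [F_flip _ i hd, F_flip _ i hs, h3, neg_mul, expect_neg_distrib] at h2
  simp only [h1]
  rw [expect_add_distrib, ← mul_expect, expect_F_mul, gam]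
  linarith

lemma Qb_eq (e : Finset ι → ℝ) (b : ι → ℝ) :
    Qb e b = 𝔼 x : ι → Bool, (∏ i, (1 + b i * sg (x i))) * F e (fun j => sg (x j)) ^ 2 := by
  rw [Qb, ← Ep_sq (fun i k => (1 + b i * sg k) / 2) (fun _ k => sg k) b (fun i => 1 - b i ^ 2)
    (fun i => by simp [sg]; ring) (fun i => by simp [sg]; ring) (fun i => by simp [sg]; ring),
    Fintype.expect_eq_sum_div_card, Ep, sum_div]
  refine sum_congr rfl fun x _ => ?_
  rw [prod_div_distrib, prod_const, card_univ, Fintype.card_fun, Fintype.card_bool]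
  push_cast
  ring

lemma jensen_boost (e : Finset ι → ℝ) (I : Finset ι) :
    nrm e * Real.exp ((∑ i ∈ I, dl e i ^ 2) / 8) ≤
      Qb e (fun i => if i ∈ I then dl e i / 4 else 0) := by
  set b : ι → ℝ := fun i => if i ∈ I then dl e i / 4 else 0 with hb
  set L : ℝ := ∑ i ∈ I, dl e i ^ 2 with hL
  have hb2 : ∀ i, |b i| ≤ 1 / 2 := by
    intro i
    have := abs_dl_le e i
    simp only [hb]
    split_ifs
    · rw [abs_div, abs_of_pos (by norm_num : (0 : ℝ) < 4)]
      linarith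
    · simp
  have e1 : ∑ i, b i * dl e i = L / 4 := by
    simp only [hb, hL, ite_mul, zero_mul, sum_ite_mem, univ_inter, sum_div]
    exact sum_congr rfl fun i _ => by ring
  have e2 : ∑ i, 2 * b i ^ 2 = L / 8 := by
    simp only [hb, hL, ite_pow, mul_ite, sum_div]
    simp only [ne_eq, OfNat.ofNat_ne_zero, not_false_eq_true, zero_pow, mul_zero, sum_ite_mem,
      univ_inter]
    exact sum_congr rfl fun i _ => by ring
  have h1 : ∀ x : ι → Bool, Real.exp (L / 8) * (1 - L / 4 + ∑ i, b i * sg (x i)) ≤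
      ∏ i, (1 + b i * sg (x i)) := by
    intro x
    have h2 : ∏ i, Real.exp (b i * sg (x i) - 2 * b i ^ 2) ≤ ∏ i, (1 + b i * sg (x i)) := by
      refine prod_le_prod (fun i _ => (Real.exp_pos _).le) fun i _ => ?_
      have h3 := exp_le_one_add (b i * sg (x i)) (by rw [abs_mul, abs_sg, mul_one]; exact hb2 i)
      have h4 : (b i * sg (x i)) ^ 2 = b i ^ 2 := by
        linear_combination b i ^ 2 * sg_sq (x i)
      rwa [h4] at h3
    rw [← Real.exp_sum, sum_sub_distrib, e2] at h2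
    refine le_trans ?_ h2
    have h3 := Real.add_one_le_exp (∑ i, b i * sg (x i) - L / 4)
    have h4 : Real.exp (∑ i, b i * sg (x i) - L / 8) =
        Real.exp (L / 8) * Real.exp (∑ i, b i * sg (x i) - L / 4) := by
      rw [← Real.exp_add]
      congr 1
      ring
    rw [h4]
    exact mul_le_mul_of_nonneg_left (by linarith) (Real.exp_pos _).le
  have h2 : 𝔼 x : ι → Bool, Real.exp (L / 8) * (1 - L / 4 + ∑ i, b i * sg (x i)) *
      F e (fun j => sg (x j)) ^ 2 = nrm e * Real.exp (L / 8) := by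
    have h3 : ∀ x : ι → Bool, Real.exp (L / 8) * (1 - L / 4 + ∑ i, b i * sg (x i)) *
        F e (fun j => sg (x j)) ^ 2 = Real.exp (L / 8) * ((1 - L / 4) * F e (fun j => sg (x j)) ^ 2 +
          ∑ i, b i * (sg (x i) * F e (fun j => sg (x j)) ^ 2)) := by
      intro x
      rw [mul_assoc, add_mul, sum_mul]
      simp only [mul_assoc]
    have h4 : 𝔼 x : ι → Bool, F e (fun j => sg (x j)) ^ 2 = nrm e := parseval e
    simp only [h3]
    rw [← mul_expect, expect_add_distrib, ← mul_expect, h4, expect_sum_comm]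
    simp only [← mul_expect, expect_sg_sq, ← nrm_mul_dl, mul_left_comm _ (nrm e), ← mul_sum, e1]
    ring
  rw [Qb_eq, ← h2]
  exact expect_le_expect fun x _ => mul_le_mul_of_nonneg_right (h1 x) (sq_nonneg _)

end Pool.Agent.MP_9e8696_an.H8
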