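import Mathlib
import Pool.Agent.MP_9e8696_an.H8.Defs

/-!
Averages over a random activation set.
-/

set_option linter.unusedSectionVars false

namespace Pool.Agent.MP_9e8696_an.H8

open Finset H67
open scoped BigOperators

variable {ι : Type*} [Fintype ι] [DecidableEq ι]

lemma avg_prod (t : ℝ) (S : Finset ι) (φ : ι → ℝ → ℝ) :
    ∑ A : Finset ι, (∏ j, if j ∈ A then t else 1 - t) * ∏ j ∈ S, φ j (idc A j) =
      ∏ j ∈ S, (t * φ j 1 + (1 - t) * φ j 0) := by
  have h1 : ∏ j ∈ S, (t * φ j 1 + (1 - t) * φ j 0) =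
      ∏ j, (t * (if j ∈ S then φ j 1 else 1) + (1 - t) * (if j ∈ S then φ j 0 else 1)) := by
    rw [← Fintype.prod_ite_mem]
    refine prod_congr rfl fun j _ => ?_
    split_ifs <;> ring
  rw [h1, Fintype.prod_add]
  refine sum_congr rfl fun A _ => ?_
  rw [← Fintype.prod_ite_mem S, ← Fintype.prod_ite_mem A, ← Fintype.prod_ite_mem Aᶜ,
    ← prod_mul_distrib, ← prod_mul_distrib]
  refine prod_congr rfl fun j _ => ?_
  by_cases h : j ∈ A <;> simp [idc, h]

lemma avg_F (c : Finset ι → ℝ) (t : ℝ) :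
    ∑ A : Finset ι, (∏ j, if j ∈ A then t else 1 - t) * F c (idc A) = F c fun _ => t := by
  unfold F
  simp only [mul_sum]
  rw [sum_comm]
  refine sum_congr rfl fun S _ => ?_
  have := avg_prod t S fun _ x => x
  simp only [mul_one, mul_zero, add_zero] at this
  rw [← this, mul_sum]
  exact sum_congr rfl fun A _ => by ring

lemma F_idc_sub (c : Finset ι → ℝ) (j : ι) : F c (idc {j}) - F c (idc ∅) = c {j} := by
  rw [F, F, ← sum_sub_distrib, sum_eq_single {j}]
  · simp [idc]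
  · intro S _ hS
    by_cases h0 : S = ∅
    · subst h0; simp
    · obtain ⟨i, hi, hij⟩ : ∃ i ∈ S, i ≠ j := by
        by_contra hcon
        push Not at hcon
        rcases subset_singleton_iff.1 (fun i hi => mem_singleton.2 (hcon i hi)) with h | h
        exacts [h0 h, hS h]
      rw [prod_eq_zero hi (by simp [idc, hij]), prod_eq_zero hi (by simp [idc])]
      simp
  · simp

lemma sens_avg {D : ℕ} {Φ : Finset ι → ℝ} (h : Φ ∈ DegS D) (t0 M : ℝ) (ht0 : 0 < t0) (hM : 0 < M)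
    (hb : ∀ t ∈ Set.Icc (0 : ℝ) t0, |∑ A : Finset ι, (∏ j, if j ∈ A then t else 1 - t) * Φ A| ≤ M) :
    |∑ j, (Φ {j} - Φ ∅)| * t0 ≤ M * (2 * (D : ℝ) ^ 2) := by
  obtain ⟨c, hc, hrep⟩ := DegS_rep h
  have h2 := extract c D hc (fun _ => t0) M hM (fun u hu => by
    rw [← avg_F]
    simpa only [hrep] using hb (u * t0)
      ⟨mul_nonneg hu.1 ht0.le, mul_le_of_le_one_left ht0.le hu.2⟩) 1
  rw [sum_card_one (fun S => c S * ∏ _i ∈ S, t0)] at h2
  simp only [hrep, F_idc_sub]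
  simp only [prod_singleton, pow_one, ← sum_mul, abs_mul, abs_of_pos ht0] at h2
  exact h2

lemma expect_exp (J : Finset ι) (a : ι → ℝ) :
    𝔼 ε : ι → Bool, Real.exp (∑ j ∈ J, sg (ε j) * a j) = ∏ j ∈ J, Real.cosh (a j) := by
  have h1 : ∀ ε : ι → Bool, Real.exp (∑ j ∈ J, sg (ε j) * a j) = ∑ T ∈ J.powerset,
      ((∏ j ∈ T, Real.sinh (a j)) * ∏ j ∈ J \ T, Real.cosh (a j)) * chi T ε := fun ε => by
    have h2 : ∀ j, Real.exp (sg (ε j) * a j) = sg (ε j) * Real.sinh (a j) + Real.cosh (a j) := by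
      intro j
      cases ε j
      · simp [sg]
      · simp only [sg, if_true, neg_mul, one_mul, ← Real.cosh_sub_sinh]; ring
    simp only [Real.exp_sum, h2, prod_add, prod_mul_distrib, chi]
    exact sum_congr rfl fun T _ => by ring
  simp only [h1, expect_sum_comm, ← mul_expect, expect_chi]
  simp

lemma expect_cosh (J : Finset ι) (a : ι → ℝ) :
    𝔼 ε : ι → Bool, (Real.cosh (∑ j ∈ J, sg (ε j) * a j) - 1) = ∏ j ∈ J, Real.cosh (a j) - 1 := by
  have h1 := expect_exp J a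
  have h2 := expect_exp J fun j => -a j
  simp only [mul_neg, sum_neg_distrib, Real.cosh_neg] at h2
  have h3 : ∀ x : ℝ, Real.cosh x = 2⁻¹ * (Real.exp x + Real.exp (-x)) := fun x => by
    rw [Real.cosh_eq]; ring
  rw [expect_sub_distrib, Fintype.expect_const]
  conv_lhs => simp only [h3]
  rw [← mul_expect, expect_add_distrib, h1, h2]
  ring

lemma cosh_avg (J : Finset ι) (c : ι → ℝ) (hc : ∀ j ∈ J, |c j| ≤ 1) (t : ℝ) (ht0 : 0 ≤ t)
    (ht1 : t ≤ 1) (hV : t * ∑ j ∈ J, c j ^ 2 ≤ 1) :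
    ∑ A : Finset ι, (∏ j, if j ∈ A then t else 1 - t) *
        (𝔼 ε : ι → Bool, (Real.cosh (∑ j ∈ J, sg (ε j) * c j * idc A j) - 1)) ≤
      2 * (t * ∑ j ∈ J, c j ^ 2) := by
  have he : ∀ x : ℝ, 0 ≤ x → x ≤ 1 → Real.exp x - 1 ≤ 2 * x := fun x h0 h1 => by
    have := Real.abs_exp_sub_one_le (x := x) (by rwa [abs_of_nonneg h0])
    rw [abs_of_nonneg h0] at this
    exact (le_abs_self _).trans this
  have h1 := avg_prod t J fun j x => Real.cosh (c j * x)
  have h0 := avg_prod t (∅ : Finset ι) fun _ _ => 1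
  simp only [prod_empty] at h0
  simp only [mul_assoc, expect_cosh, mul_sub, sum_sub_distrib, h0, h1]
  refine le_trans ?_ (he _ (by positivity) hV)
  rw [mul_sum, Real.exp_sum]
  refine sub_le_sub_right (prod_le_prod (fun j _ => ?_) fun j hj => ?_) _
  · exact add_nonneg (mul_nonneg ht0 (Real.cosh_pos _).le)
      (mul_nonneg (by linarith) (Real.cosh_pos _).le)
  · have h2 : c j ^ 2 ≤ 1 := (sq_le_one_iff_abs_le_one _).2 (hc j hj)
    have h3 := he (c j ^ 2 / 2) (by positivity) (by linarith)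
    have h4 := Real.cosh_le_exp_half_sq (c j)
    have h5 := Real.add_one_le_exp (t * c j ^ 2)
    rw [mul_one, mul_zero, Real.cosh_zero]
    nlinarith [mul_le_mul_of_nonneg_left (show Real.cosh (c j) ≤ 1 + c j ^ 2 by linarith) ht0]

end Pool.Agent.MP_9e8696_an.H8
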