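import Pool.Agent.MP_9e8696_an.H8.Tail
import Pool.Agent.MP_9e8696_an.H8.Act

/-!
Planting disjoint patches together with small tilts.
-/

set_option linter.unusedSectionVars false

namespace Pool.Agent.MP_9e8696_an.H8

open Finset H67
open scoped BigOperators

variable {ι : Type*} [Fintype ι] [DecidableEq ι]

/-- The planted point. -/
def pz (J : Finset ι) (B : ι → Finset ι) (c : ι → ι → ℝ) (y η : ι → ℝ) (ε : ι → Bool)
    (A : Finset ι) (i : ι) : ℝ :=
  y i + ∑ j ∈ J, (sg (ε j) * c j i + if ε j = false ∧ i ∈ B j then η i - y i else 0) * idc A j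

lemma pz_bound {a : Finset ι → ℝ} {d : ℕ} (hd : 1 ≤ d) (ha : DegLe a d) (hb : Bdd a)
    {J : Finset ι} {B : ι → Finset ι} (hB : ∀ j ∈ J, ∀ k ∈ J, j ≠ k → Disjoint (B j) (B k))
    (c : ι → ι → ℝ) {lam : ℝ} (hlam : 8 * (d : ℝ) ≤ lam) {y η : ι → ℝ}
    (hy : ∀ i, |y i| ≤ 1 - 1 / (4 * (d : ℝ))) (hη : ∀ i, |η i| ≤ 1 - 1 / (4 * (d : ℝ)))
    (ε : ι → Bool) (A : Finset ι) :
    |F a (pz J B c y η ε A)| ≤ 1 + 4 * Real.exp (3 * (d : ℝ) ^ 2 + 1 - lam / (4 * d)) *
      ∑ i, (Real.cosh (∑ j ∈ J, sg (ε j) * (lam * c j i) * idc A j) - 1) := by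
  have h := tail_point hd ha hb lam hlam
    (fun i => y i + ∑ j ∈ J, (if ε j = false ∧ i ∈ B j then η i - y i else 0) * idc A j)
    (fun i => ∑ j ∈ J, sg (ε j) * c j i * idc A j) fun i => by
      by_cases h : ∃ j ∈ J, (ε j = false ∧ i ∈ B j) ∧ j ∈ A
      · obtain ⟨j, hj, hi, hA⟩ := h
        rw [sum_eq_single_of_mem j hj fun k hk hkj => by
          rw [if_neg fun h => disjoint_left.1 (hB k hk j hj hkj) h.2 hi.2, zero_mul]]
        simpa [hi, idc, hA] using hη i
      · rw [sum_eq_zero fun j hj => ?_, add_zero]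
        · exact hy i
        · by_cases h' : ε j = false ∧ i ∈ B j
          · rw [idc, if_neg fun hA => h ⟨j, hj, h', hA⟩, mul_zero]
          · rw [if_neg h', zero_mul]
  convert h using 3
  · funext i
    simp only [pz, add_mul, sum_add_distrib]
    ring
  · refine sum_congr rfl fun i _ => ?_
    rw [mul_sum]
    congr 2
    exact sum_congr rfl fun j _ => by ring

lemma sum_bern (t : ℝ) : ∑ A : Finset ι, (∏ j, if j ∈ A then t else 1 - t) = 1 := by
  have h := prod_add (fun _ : ι => t) (fun _ => 1 - t) univ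
  simp only [add_sub_cancel, prod_const_one, powerset_univ] at h
  refine (sum_congr rfl fun A _ => ?_).trans h.symm
  rw [prod_ite, filter_mem_eq_inter, univ_inter, filter_notMem_eq_sdiff]

lemma plant {a : Finset ι → ℝ} {d : ℕ} (hd : 1 ≤ d) (ha : DegLe a d) (hb : Bdd a)
    (J : Finset ι) (B : ι → Finset ι) (hB : ∀ j ∈ J, ∀ k ∈ J, j ≠ k → Disjoint (B j) (B k))
    (c : ι → ι → ℝ) (lam V T : ℝ) (hlam : 8 * (d : ℝ) ≤ lam) (hV : 1 ≤ V)
    (hc : ∀ j ∈ J, ∀ i, |c j i| ≤ 1 / lam) (hcol : ∀ i, ∑ j ∈ J, c j i ^ 2 ≤ V)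
    (htot : ∑ j ∈ J, ∑ i, c j i ^ 2 ≤ T)
    (hT : 8 * T * Real.exp (3 * (d : ℝ) ^ 2 + 1) ≤ Real.exp (lam / (4 * d)))
    (y η η' : ι → ℝ) (hy : ∀ i, |y i| ≤ 1 - 1 / (4 * (d : ℝ)))
    (hη : ∀ i, |η i| ≤ 1 - 1 / (4 * (d : ℝ))) (hη' : ∀ i, |η' i| ≤ 1 - 1 / (4 * (d : ℝ))) :
    |∑ j ∈ J, (F a (fun i => (if i ∈ B j then η i else y i) + c j i) -
        F a (fun i => (if i ∈ B j then η' i else y i) + c j i))| ≤
      16 * (d : ℝ) ^ 2 * lam ^ 2 * V := by
  have hd' : (1 : ℝ) ≤ d := by exact_mod_cast hd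
  have hl : 1 ≤ lam := by linarith
  have hlV : 1 ≤ lam ^ 2 * V := one_le_mul_of_one_le_of_one_le (one_le_pow₀ hl) hV
  set Φ : Finset ι → ℝ := fun A =>
    𝔼 ε : ι → Bool, (F a (pz J B c y η ε A) - F a (pz J B c y η' ε A)) with hΦ
  have hΦ1 : Φ ∈ DegS d := by
    have := Submodule.smul_mem (DegS d) ((Fintype.card (ι → Bool) : ℝ)⁻¹)
      (Submodule.sum_mem (DegS d) (t := univ) (f := fun ε : ι → Bool =>
        (fun A => F a (pz J B c y η ε A)) - fun A => F a (pz J B c y η' ε A)) fun ε _ =>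
          sub_mem (DegS_F ha y J _) (DegS_F ha y J _))
    convert this using 1
    funext A
    simp [hΦ, Fintype.expect_eq_sum_div_card, div_eq_inv_mul]
  set K := 4 * Real.exp (3 * (d : ℝ) ^ 2 + 1 - lam / (4 * d)) with hK
  have hK0 : 0 < K := by positivity
  have hKT : K * T ≤ 1 / 2 := by
    rw [hK, Real.exp_sub, mul_assoc, div_mul_eq_mul_div, ← mul_div_assoc,
      div_le_iff₀ (Real.exp_pos _)]
    linarith
  have hΦ2 : ∀ A, |Φ A| ≤ 2 + 2 * K * ∑ i,
      𝔼 ε : ι → Bool, (Real.cosh (∑ j ∈ J, sg (ε j) * (lam * c j i) * idc A j) - 1) := fun A => by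
    rw [← expect_sum_comm, mul_expect, ← Fintype.expect_const (ι := ι → Bool) (2 : ℝ),
      ← expect_add_distrib]
    refine (abs_expect_le _ _).trans (expect_le_expect fun ε _ => ?_)
    rw [Fintype.expect_const]
    linarith [abs_sub (F a (pz J B c y η ε A)) (F a (pz J B c y η' ε A)),
      pz_bound hd ha hb hB c hlam hy hη ε A, pz_bound hd ha hb hB c hlam hy hη' ε A]
  have key := sens_avg hΦ1 (1 / (lam ^ 2 * V)) 4 (by positivity) (by norm_num) fun t ht => by
    have ht1 : t * (lam ^ 2 * V) ≤ 1 := (le_div_iff₀ (by positivity)).1 ht.2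
    have ht2 : t ≤ 1 := by nlinarith [ht.1]
    have hp : ∀ A : Finset ι, 0 ≤ ∏ j, if j ∈ A then t else 1 - t := fun A =>
      prod_nonneg fun j _ => by split_ifs <;> linarith [ht.1]
    have hs : ∀ i, ∑ j ∈ J, (lam * c j i) ^ 2 = lam ^ 2 * ∑ j ∈ J, c j i ^ 2 := fun i => by
      simp only [mul_pow, mul_sum]
    have h1 := fun i => cosh_avg J (fun j => lam * c j i) (fun j hj => by
      rw [abs_mul, abs_of_pos (by linarith : 0 < lam), mul_comm]
      exact (le_div_iff₀ (by linarith)).1 (hc j hj i)) t ht.1 ht2 (by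
      rw [hs]
      exact (mul_le_mul_of_nonneg_left (mul_le_mul_of_nonneg_left (hcol i) (sq_nonneg _))
        ht.1).trans ht1)
    have h2 := sum_le_sum fun i (_ : i ∈ univ) => h1 i
    simp only [hs, ← mul_sum] at h2
    rw [sum_comm, sum_comm (s := univ) (t := J)] at h2
    have h3 : 0 ≤ ∑ j ∈ J, ∑ i, c j i ^ 2 := by positivity
    have h4 : t * lam ^ 2 ≤ 1 := by nlinarith [mul_nonneg ht.1 (sq_nonneg lam)]
    refine (abs_sum_le_sum_abs _ _).trans ((sum_le_sum fun A _ => (abs_mul _ _).trans_le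
      (mul_le_mul (abs_of_nonneg (hp A)).le (hΦ2 A) (abs_nonneg _) (hp A))).trans ?_)
    simp only [mul_add, sum_add_distrib, ← sum_mul, sum_bern, mul_left_comm _ (2 * K), ← mul_sum]
    simp only [← mul_sum] at h2
    nlinarith [mul_le_mul_of_nonneg_left h2 hK0.le, mul_le_mul_of_nonneg_left htot hK0.le,
      mul_le_mul_of_nonneg_right h4 (mul_nonneg hK0.le h3)]
  have h0 : ∀ η ε, pz J B c y η ε ∅ = y := fun η ε => by
    funext i
    simp [pz, idc]
  have h5 : ∀ j ∉ J, ∀ η ε, pz J B c y η ε {j} = y := fun j hj η ε => by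
    funext i
    rw [pz, sum_eq_zero fun k hk => ?_, add_zero]
    simp [idc, ne_of_mem_of_not_mem hk hj]
  have h6 : ∀ j ∈ J, ∀ η ε, pz J B c y η ε {j} = fun i =>
      (if ε j = false ∧ i ∈ B j then η i else y i) + sg (ε j) * c j i := fun j hj η ε => by
    funext i
    rw [pz, sum_eq_single_of_mem j hj fun k _ hk => by simp [idc, hk]]
    simp only [idc, mem_singleton, if_true]
    split_ifs <;> ring
  have h7 : ∀ j ∈ J, Φ {j} - Φ ∅ = (F a (fun i => (if i ∈ B j then η i else y i) + c j i) -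
      F a (fun i => (if i ∈ B j then η' i else y i) + c j i)) / 2 := fun j hj => by
    set D := (F a (fun i => (if i ∈ B j then η i else y i) + c j i) -
      F a (fun i => (if i ∈ B j then η' i else y i) + c j i)) / 2 with hD
    have h8 := expect_chi (ι := ι) {j}
    simp only [hΦ, h0, sub_self, Fintype.expect_const, sub_zero, h6 j hj]
    rw [expect_congr rfl (g := fun ε => D + D * chi {j} ε) fun ε _ => ?_, expect_add_distrib,
      ← mul_expect, h8]
    · simp
    · cases h : ε j <;> simp [h, chi, sg, hD]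
  rw [← sum_subset (subset_univ J) fun j _ hj => by simp [hΦ, h0, h5 j hj], sum_congr rfl h7,
    ← sum_div, abs_div, abs_two, mul_one_div, div_le_iff₀ (by positivity)] at key
  linarith

end Pool.Agent.MP_9e8696_an.H8
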