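import Pool.Agent.MP_9e8696_an.H8.Res
import Pool.Agent.MP_9e8696_an.H8.Moment
import Pool.Agent.MP_9e8696_an.H8.Plant
import Pool.Agent.MP_9e8696_an.H8.Greedy

/-!
The boost lemma: second moments of derivatives under tilted product measures.
-/

set_option linter.unusedSectionVars false

namespace Pool.Agent.MP_9e8696_an.H8

open Finset H67
open scoped BigOperators

variable {ι : Type*} [Fintype ι] [DecidableEq ι]

lemma card_big (s : Finset ι) (f : ι → ℝ) (lam M : ℝ) (hlam : 0 < lam)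
    (h : ∑ i ∈ s, f i ^ 2 ≤ M) : ((s.filter fun i => 1 / lam < |f i|).card : ℝ) ≤ M * lam ^ 2 := by
  rw [card_filter]
  push_cast
  refine le_trans (sum_le_sum fun i _ => ?_)
    ((sum_mul s (fun i => f i ^ 2) _).ge.trans (mul_le_mul_of_nonneg_right h (sq_nonneg _)))
  split_ifs with hi
  · rw [div_lt_iff₀ hlam] at hi
    rw [← sq_abs (f i), ← mul_pow]
    exact one_le_pow₀ hi.le
  · positivity

lemma Ep_sum_le {κ : Type*} [Fintype κ] (π : ι → κ → ℝ) (h0 : ∀ i k, 0 ≤ π i k)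
    (h1 : ∀ i, ∑ k, π i k = 1) (J : Finset ι) (G : ι → (ι → κ) → ℝ) (M : ℝ)
    (h : ∀ x, ∑ j ∈ J, G j x ≤ M) : ∑ j ∈ J, Ep π (G j) ≤ M := by
  unfold Ep
  rw [sum_comm]
  have h2 : ∑ x : ι → κ, ∏ i, π i (x i) = 1 := by
    rw [← Fintype.piFinset_univ, ← prod_univ_sum]
    simp [h1]
  calc _ ≤ ∑ x : ι → κ, (∏ i, π i (x i)) * M := sum_le_sum fun x _ => by
        rw [← mul_sum]
        exact mul_le_mul_of_nonneg_left (h x) (prod_nonneg fun i _ => h0 i _)
    _ = M := by rw [← sum_mul, h2, one_mul]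

lemma point_sum {a : Finset ι → ℝ} {d : ℕ} (hd : 1 ≤ d) (ha : DegLe a d) (hb : Bdd a)
    (J : Finset ι) (B : ι → Finset ι) (hne : ∀ j, j ∈ B j)
    (hB : ∀ j ∈ J, ∀ k ∈ J, j ≠ k → Disjoint (B j) (B k))
    (b : ι → ι → ℝ) (lam V T : ℝ) (hlam : 8 * (d : ℝ) ≤ lam) (hV : 1 ≤ V)
    (hc : ∀ j i, i ∉ B j → |b j i| ≤ 1 / lam) (hcol : ∀ i, ∑ j ∈ J, b j i ^ 2 ≤ V)
    (htot : ∑ j ∈ J, ∑ i, b j i ^ 2 ≤ T)
    (hT : 8 * T * Real.exp (3 * (d : ℝ) ^ 2 + 1) ≤ Real.exp (lam / (4 * d)))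
    (ρ : ℝ) (hρ : ρ = 1 - 1 / (4 * (d : ℝ))) (y ξ : ι → Bool) :
    ∑ j ∈ J, F (sh {j} a) (fun i => if i ∈ B j then ρ * sg (ξ i) else ρ * sg (y i) + b j i) ^ 2 ≤
      11 * (d : ℝ) ^ 2 * lam ^ 2 * V := by
  have hd' : (1 : ℝ) ≤ d := by exact_mod_cast hd
  have hl : 0 < lam := by linarith
  have hκ : 1 / (4 * (d : ℝ)) ≤ 1 / 4 := one_div_le_one_div_of_le (by norm_num) (by linarith)
  have hκ' : 1 / lam ≤ 1 / (4 * (d : ℝ)) := one_div_le_one_div_of_le (by linarith) (by linarith)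
  have hκ0 : 0 < 1 / lam := by positivity
  have h3 : 3 / 4 ≤ ρ := by linarith
  have habs : ∀ t, |ρ * sg t| = ρ := fun t => by
    rw [abs_mul, abs_sg, mul_one, abs_of_nonneg (by linarith)]
  set p : ι → ι → ℝ := fun j i => if i ∈ B j then ρ * sg (ξ i) else ρ * sg (y i) + b j i with hp
  let σ : ι → Bool := fun j => decide (F (sh {j} a) (p j) < 0)
  have hσ : ∀ j, sg (σ j) * F (sh {j} a) (p j) = |F (sh {j} a) (p j)| := fun j => by
    by_cases h : F (sh {j} a) (p j) < 0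
    · simp [σ, sg, h, abs_of_neg h]
    · simp [σ, sg, h, abs_of_nonneg (not_lt.1 h)]
  have hsq : ∀ j i, (if i ∈ B j then 0 else b j i) ^ 2 ≤ b j i ^ 2 := fun j i => by
    split_ifs <;> simp [sq_nonneg]
  have hup : ∀ τ : ι → Bool, ∀ j ∈ J, (fun i => (if i ∈ B j then
      ρ * sg (if i ∈ J then τ i else ξ i) else ρ * sg (y i)) + if i ∈ B j then 0 else b j i) =
      Function.update (p j) j (ρ * sg (τ j)) := fun τ j hj => by
    funext i
    by_cases h : i = j
    · subst h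
      simp [hne, hj]
    · by_cases h' : i ∈ B j
      · have : i ∉ J := fun hi => disjoint_left.1 (hB i hi j hj h) (hne i) h'
        simp [h, h', this, hp]
      · simp [h, h', hp]
  have key := plant hd ha hb J B hB (fun j i => if i ∈ B j then 0 else b j i) lam V T hlam hV
    (fun j _ i => by
      split_ifs with h
      · simpa using hl.le
      · exact hc j i h)
    (fun i => (sum_le_sum fun j _ => hsq j i).trans (hcol i))
    ((sum_le_sum fun j _ => sum_le_sum fun i _ => hsq j i).trans htot) hT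
    (fun i => ρ * sg (y i)) (fun i => ρ * sg (if i ∈ J then σ i else ξ i))
    (fun i => ρ * sg (if i ∈ J then !σ i else ξ i))
    (fun i => by rw [habs, hρ]) (fun i => by rw [habs, hρ]) (fun i => by rw [habs, hρ])
  rw [sum_congr rfl (g := fun j => 2 * ρ * |F (sh {j} a) (p j)|) fun j hj => by
    rw [hup σ j hj, hup (fun i => !σ i) j hj, F_update_sub, ← hσ,
      show sg (!σ j) = -sg (σ j) by cases σ j <;> simp [sg]]
    ring, ← mul_sum] at key
  have h1 : ∑ j ∈ J, F (sh {j} a) (p j) ^ 2 ≤ ∑ j ∈ J, |F (sh {j} a) (p j)| :=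
    sum_le_sum fun j _ => by
      have := abs_F_sh_le hb j (p j) fun i => by
        simp only [hp]
        split_ifs with h
        · rw [habs]
          linarith
        · have := abs_add_le (ρ * sg (y i)) (b j i)
          rw [habs] at this
          linarith [hc j i h]
      rw [← sq_abs]
      nlinarith [abs_nonneg (F (sh {j} a) (p j))]
  have h2 : 0 ≤ ∑ j ∈ J, |F (sh {j} a) (p j)| := sum_nonneg fun j _ => abs_nonneg _
  have h4 := (le_abs_self _).trans key
  have h5 : 0 ≤ (d : ℝ) ^ 2 * lam ^ 2 * V := by positivity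
  nlinarith [mul_le_mul_of_nonneg_right h3 h2]

set_option linter.unusedVariables false in
lemma boost {a : Finset ι → ℝ} {d : ℕ} (hd : 1 ≤ d) (ha : DegLe a d) (hb : Bdd a)
    (J : Finset ι) (b : ι → ι → ℝ) (lam V : ℝ) (hlam : 8 * (d : ℝ) ≤ lam) (hV : 1 ≤ V)
    (hb2 : ∀ j i, |b j i| ≤ 1 / 2) (hbj : ∀ j, b j j = 0)
    (hrow : ∀ j ∈ J, ∑ i, b j i ^ 2 ≤ d) (hcol : ∀ i, ∑ j ∈ J, b j i ^ 2 ≤ V)
    (hT : 8 * ((d : ℝ) * J.card) * Real.exp (3 * (d : ℝ) ^ 2 + 1) ≤ Real.exp (lam / (4 * d))) :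
    ∑ j ∈ J, Qb (sh {j} a) (b j) ≤ Kb d V lam := by
  have hd' : (1 : ℝ) ≤ d := by exact_mod_cast hd
  have hl : 0 < lam := by linarith
  have hsq : ∀ j i, b j i ^ 2 ≤ 1 / 4 := fun j i => by
    rw [← sq_abs]
    nlinarith [hb2 j i, abs_nonneg (b j i)]
  let B : ι → Finset ι := fun j => insert j (univ.filter fun i => 1 / lam < |b j i|)
  obtain ⟨J', hJ, hB, hw⟩ := greedy B (fun j => Qb (sh {j} a) (b j))
    (fun j => sum_nonneg fun T _ => mul_nonneg (sq_nonneg _)
      (prod_nonneg fun i _ => by linarith [hsq j i])) (d * lam ^ 2 + 1) (V * lam ^ 2 + 1) J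
    (fun j _ => mem_insert_self _ _)
    (fun j hj => (Nat.cast_le.2 (card_insert_le _ _)).trans (by
      push_cast
      linarith [card_big univ (b j) lam d hl (hrow j hj)]))
    (fun i => (Nat.cast_le.2 ((card_le_card (t := insert i (J.filter fun j => 1 / lam < |b j i|))
      fun j hj => by
        simp only [B, mem_filter, mem_insert, mem_univ, true_and] at hj ⊢
        tauto).trans (card_insert_le _ _))).trans (by
      push_cast
      linarith [card_big J (fun j => b j i) lam V hl (hcol i)]))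
  refine hw.trans (mul_le_mul_of_nonneg_left ?_ (by positivity))
  obtain ⟨ρ, hρ⟩ : ∃ ρ : ℝ, ρ = 1 - 1 / (4 * (d : ℝ)) := ⟨_, rfl⟩
  have hκ : 1 / (4 * (d : ℝ)) ≤ 1 / 4 := one_div_le_one_div_of_le (by norm_num) (by linarith)
  have hκ0 : 0 < 1 / (4 * (d : ℝ)) := by positivity
  have hρ0 : 0 < ρ := by linarith
  let be : ι → ℝ := fun i => ∑ j ∈ J', if i ∈ B j then b j i else 0
  have hbe : ∀ j ∈ J', ∀ i ∈ B j, be i = b j i := fun j hj i hi => by
    rw [← if_pos (t := b j i) (e := 0) hi]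
    exact sum_eq_single_of_mem j hj fun k hk h => if_neg fun h' =>
      disjoint_left.1 (hB k hk j hj h) h' hi
  have hbe2 : ∀ i, |be i| ≤ 1 / 2 := fun i => by
    by_cases h : ∃ j ∈ J', i ∈ B j
    · obtain ⟨j, hj, hi⟩ := h
      rw [hbe j hj i hi]
      exact hb2 j i
    · rw [show be i = 0 from sum_eq_zero fun j hj => if_neg fun hi => h ⟨j, hj, hi⟩]
      norm_num
  let π : ι → Bool × Bool → ℝ := fun i k => (1 + sg k.2 * be i / ρ) / 4
  have h1 : ∀ i, ∑ k, π i k = 1 := fun i => by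
    simp [π, Fintype.sum_prod_type, sg]
    ring
  have h0 : ∀ i k, 0 ≤ π i k := fun i k => by
    have : |sg k.2 * be i / ρ| ≤ 1 := by
      rw [abs_div, abs_mul, abs_sg, abs_of_pos hρ0, div_le_one hρ0]
      linarith [hbe2 i]
    simp only [π]
    linarith [(abs_le.1 this).1]
  have h2 := Ep_sum_le π h0 h1 J' (fun j x => F (sh {j} a) (fun i =>
    if i ∈ B j then ρ * sg (x i).2 else ρ * sg (x i).1 + b j i) ^ 2) _ fun x =>
    point_sum hd ha hb J' B (fun j => mem_insert_self _ _) hB b lam V (d * J.card) hlam hV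
      (fun j i hi => not_lt.1 fun h => hi (mem_insert_of_mem (mem_filter.2 ⟨mem_univ _, h⟩)))
      (fun i => (sum_le_sum_of_subset_of_nonneg hJ fun j _ _ => sq_nonneg _).trans (hcol i))
      ((sum_le_sum_of_subset_of_nonneg hJ fun j _ _ => sum_nonneg fun i _ => sq_nonneg _).trans
        ((sum_le_sum hrow).trans (by simp [mul_comm]))) hT ρ hρ
      (fun i => (x i).1) (fun i => (x i).2)
  refine le_trans (sum_le_sum fun j hj => ?_) ((mul_sum J' _ 4).ge.trans (by linarith))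
  rw [Ep_sq π (fun i k => if i ∈ B j then ρ * sg k.2 else ρ * sg k.1 + b j i) (b j)
    (fun i => if i ∈ B j then ρ ^ 2 - b j i ^ 2 else ρ ^ 2) h1 (fun i => ?_) fun i => ?_]
  · refine Qb_le hd (ha.sh _) _ _ (fun i => (hb2 j i).trans (by norm_num)) fun i => ?_
    rw [show 3 / (4 * (d : ℝ)) = 3 * (1 / (4 * (d : ℝ))) by ring, hρ]
    split_ifs <;> nlinarith [hsq j i, sq_nonneg (b j i)]
  · split_ifs with h
    · simp [π, Fintype.sum_prod_type, sg, hbe j hj i h]
      field_simp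
      ring
    · simp [π, Fintype.sum_prod_type, sg]
      ring
  · split_ifs with h
    · simp [π, Fintype.sum_prod_type, sg, hbe j hj i h]
      field_simp
      ring
    · simp [π, Fintype.sum_prod_type, sg]
      ring

end Pool.Agent.MP_9e8696_an.H8
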