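import Mathlib
import Pool.Agent.MP_9e8696_an.H8.Res

/-!
Iteration of a one-step bound for the potential along random restrictions.
-/

set_option linter.unusedSectionVars false

namespace Pool.Agent.MP_9e8696_an.H8

open Finset H67
open scoped BigOperators

variable {ι : Type*} [Fintype ι] [DecidableEq ι]

/-- Weight whose average after `N` random restrictions is a lower bound for the level one mass. -/
noncomputable def iterW (n : ℝ) (N : ℕ) (r : ℕ) : ℝ :=
  (r : ℝ) * (1 - 1 / n) ^ N - (r : ℝ) * ((r : ℝ) - 1) * (1 - 2 / n) ^ N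

lemma iterW_succ (n : ℝ) (hn : n ≠ 0) (N r : ℕ) :
    (n - r) * iterW n N r + r * iterW n N (r - 1) = n * iterW n (N + 1) r := by
  rcases r with _ | r
  · simp [iterW]
  · simp only [iterW, Nat.add_sub_cancel, pow_succ]
    push_cast
    field_simp
    ring

lemma iter_quartic (x τ : ℝ) (hτ : 0 ≤ τ) : τ ^ 2 * x ^ 2 - τ ^ 3 * |x| ≤ (x ^ 2) ^ 2 := by
  have h0 := abs_nonneg x
  rw [← sq_abs x]
  set y := |x|
  rcases le_total τ y with h | h
  · have h1 : τ ^ 2 ≤ y ^ 2 := pow_le_pow_left₀ hτ h 2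
    have h2 : τ ^ 2 * y ^ 2 ≤ y ^ 2 * y ^ 2 := mul_le_mul_of_nonneg_right h1 (sq_nonneg _)
    have h3 : 0 ≤ τ ^ 3 * y := by positivity
    nlinarith
  · have h1 : 0 ≤ τ ^ 2 * y * (τ - y) := mul_nonneg (by positivity) (by linarith)
    nlinarith [sq_nonneg (y ^ 2)]

lemma iter_l1 {a : Finset ι → ℝ} {d : ℕ} (hd : 1 ≤ d) (ha : DegLe a d) (hb : Bdd a) :
    ∑ j, |a {j}| ≤ 8 * (d : ℝ) ^ 3 := by
  have hd' : (1 : ℝ) ≤ d := by exact_mod_cast hd
  have hw : ∀ i : ι, |(fun _ : ι => (0 : ℝ)) i| ≤ 1 - 1 / (4 * (d : ℝ)) := by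
    intro i
    have : 1 / (4 * (d : ℝ)) ≤ 1 := by
      rw [div_le_one (by positivity)]; linarith
    simp only [abs_zero]; linarith
  have h := l1_bound hd ha hb (fun _ => 0) hw (fun j => if 0 ≤ a {j} then 1 else -1)
    (fun j => by split_ifs <;> simp)
  have hF : ∀ j, F (sh {j} a) (fun _ => (0 : ℝ)) = a {j} := by
    intro j
    unfold F
    rw [sum_eq_single ∅]
    · simp [sh]
    · intro S _ hS
      obtain ⟨i, hi⟩ := nonempty_iff_ne_empty.2 hS
      rw [prod_eq_zero hi rfl, mul_zero]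
    · intro h; exact absurd (mem_univ _) h
  simp only [hF] at h
  refine le_trans (le_of_eq ?_) ((le_abs_self _).trans h)
  refine sum_congr rfl fun j _ => ?_
  split_ifs with h1
  · rw [abs_of_nonneg h1, one_mul]
  · rw [abs_of_neg (not_le.1 h1)]; ring

lemma iter_base {a : Finset ι → ℝ} {d : ℕ} (hd : 1 ≤ d) (ha : DegLe a d) (hb : Bdd a)
    (β : ℝ) (hβ0 : 0 < β) (hβ1 : β ≤ 1) (n τ : ℝ) (hτ : 0 ≤ τ) :
    τ ^ 2 * (∑ T, iterW n 0 T.card * a T ^ 2 - 8 * (d : ℝ) ^ 3 * τ) ≤ Psi β a := by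
  have h1 : ∑ T, iterW n 0 T.card * a T ^ 2 ≤ ∑ j, a {j} ^ 2 := by
    rw [← sum_card_one (fun S => a S ^ 2)]
    refine sum_le_sum fun T _ => ?_
    split_ifs with h
    · simp [iterW, h]
    · refine mul_nonpos_of_nonpos_of_nonneg ?_ (sq_nonneg _)
      simp only [iterW, pow_zero, mul_one]
      rcases Nat.eq_zero_or_pos T.card with h0 | h0
      · simp [h0]
      · have h2 : (2 : ℝ) ≤ T.card := by exact_mod_cast (by omega : 2 ≤ T.card)
        nlinarith
  have h2 := iter_l1 hd ha hb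
  have h3 : ∀ j, (a {j} ^ 2) ^ 2 ≤ inf a j ^ (1 + β) := by
    intro j
    have e1 : a {j} ^ 2 ≤ inf a j := by
      rw [inf_eq]
      have := single_le_sum (f := fun S : Finset ι => if j ∈ S then a S ^ 2 else 0)
        (fun S _ => by split_ifs <;> positivity) (mem_univ {j})
      simpa using this
    have e2 : inf a j ≤ 1 := (inf_le_nrm a j).trans (nrm_le_one hb)
    have e3 : inf a j ^ ((2 : ℕ) : ℝ) ≤ inf a j ^ (1 + β) :=
      Real.rpow_le_rpow_of_exponent_ge' (inf_nonneg a j) e2 (by linarith) (by push_cast; linarith)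
    rw [Real.rpow_natCast] at e3
    exact (pow_le_pow_left₀ (sq_nonneg _) e1 2).trans e3
  calc τ ^ 2 * (∑ T, iterW n 0 T.card * a T ^ 2 - 8 * (d : ℝ) ^ 3 * τ)
      ≤ τ ^ 2 * (∑ j, a {j} ^ 2 - (∑ j, |a {j}|) * τ) := by
        refine mul_le_mul_of_nonneg_left ?_ (sq_nonneg _)
        have := mul_le_mul_of_nonneg_right h2 hτ
        linarith
    _ = ∑ j, (τ ^ 2 * a {j} ^ 2 - τ ^ 3 * |a {j}|) := by
        rw [sum_sub_distrib, ← mul_sum, ← mul_sum]; ring
    _ ≤ ∑ j, inf a j ^ (1 + β) := sum_le_sum fun j _ => (iter_quartic _ _ hτ).trans (h3 j)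

lemma iter_ind {d : ℕ} (hd : 1 ≤ d) (hn : 2 ≤ Fintype.card ι) (β α c0 : ℝ) (hβ0 : 0 < β)
    (hβ1 : β ≤ 1) (hα : 0 ≤ α) (hc0 : 0 ≤ c0)
    (hstep : ∀ a : Finset ι → ℝ, DegLe a d → Bdd a →
      ∑ i, (Psi β (res i 1 a) + Psi β (res i (-1) a)) / 2 ≤
        Fintype.card ι * Psi β a + α * (Psi β a + c0))
    (τ : ℝ) (hτ : 0 ≤ τ) (N : ℕ) : ∀ a : Finset ι → ℝ, DegLe a d → Bdd a →
    τ ^ 2 * (∑ T, iterW (Fintype.card ι) N T.card * a T ^ 2 - 8 * (d : ℝ) ^ 3 * τ) ≤
      (1 + α / Fintype.card ι) ^ N * (Psi β a + c0) := by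
  have hn' : (2 : ℝ) ≤ Fintype.card ι := by exact_mod_cast hn
  set n : ℝ := (Fintype.card ι : ℝ) with hndef
  have hn0 : 0 < n := by linarith
  induction N with
  | zero =>
    intro a ha hb
    have := iter_base hd ha hb β hβ0 hβ1 n τ hτ
    rw [pow_zero, one_mul]; linarith
  | succ N ih =>
    intro a ha hb
    have hw := weight_step (iterW n N) a
    rw [← hndef] at hw
    simp only [iterW_succ n hn0.ne', mul_assoc, ← mul_sum] at hw
    have hs := hstep a ha hb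
    set G := (1 + α / n) ^ N with hG
    have hG0 : 0 ≤ G := by positivity
    set K := 8 * (d : ℝ) ^ 3 * τ with hK
    have hi : ∀ i, τ ^ 2 * ((∑ T, iterW n N T.card * res i 1 a T ^ 2 +
        ∑ T, iterW n N T.card * res i (-1) a T ^ 2) / 2 - K) ≤
        G * ((Psi β (res i 1 a) + Psi β (res i (-1) a)) / 2 + c0) := by
      intro i
      have e1 := ih _ (degLe_res ha i 1) (bdd_res hb i 1 (by simp))
      have e2 := ih _ (degLe_res ha i (-1)) (bdd_res hb i (-1) (by simp))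
      linarith
    have hsum := sum_le_sum fun i (_ : i ∈ (univ : Finset ι)) => hi i
    rw [← mul_sum, ← mul_sum, sum_sub_distrib, sum_add_distrib, hw] at hsum
    simp only [sum_const, card_univ, nsmul_eq_mul] at hsum
    rw [← hndef] at hsum
    have h2 : G * (∑ i, (Psi β (res i 1 a) + Psi β (res i (-1) a)) / 2 + n * c0) ≤
        G * (n * Psi β a + α * (Psi β a + c0) + n * c0) :=
      mul_le_mul_of_nonneg_left (by linarith) hG0
    refine le_of_mul_le_mul_left ?_ hn0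
    have h3 : n * ((1 + α / n) ^ (N + 1) * (Psi β a + c0)) =
        G * (n * Psi β a + α * (Psi β a + c0) + n * c0) := by
      rw [pow_succ, ← hG]; field_simp; ring
    rw [h3]
    linarith

lemma iter {d : ℕ} (hd : 1 ≤ d) (hn : 2 ≤ Fintype.card ι) (β α c0 : ℝ) (hβ0 : 0 < β)
    (hβ1 : β ≤ 1) (hα : 0 ≤ α) (hc0 : 0 ≤ c0)
    (hstep : ∀ a : Finset ι → ℝ, DegLe a d → Bdd a →
      ∑ i, (Psi β (res i 1 a) + Psi β (res i (-1) a)) / 2 ≤
        Fintype.card ι * Psi β a + α * (Psi β a + c0))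
    {a : Finset ι → ℝ} (ha : DegLe a d) (hb : Bdd a) :
    var a ^ 3 / (2 ^ 18 * (d : ℝ) ^ 9) ≤
      Real.exp (α * (Real.log (2 * d) + 1)) * (Psi β a + c0) := by
  have hd' : (1 : ℝ) ≤ d := by exact_mod_cast hd
  have hn' : (2 : ℝ) ≤ Fintype.card ι := by exact_mod_cast hn
  have hv0 : 0 ≤ var a := sum_nonneg fun S _ => by split_ifs <;> positivity
  have hind := iter_ind hd hn β α c0 hβ0 hβ1 hα hc0 hstep (var a / (128 * (d : ℝ) ^ 4))
    (by positivity)
  set n : ℝ := (Fintype.card ι : ℝ) with hndef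
  have hn0 : 0 < n := by linarith
  have hin : 1 / n ≤ 1 / 2 := one_div_le_one_div_of_le (by norm_num) hn'
  have hin0 : 0 < 1 / n := by positivity
  have hx0 : 0 < 1 / (2 * (d : ℝ)) := by positivity
  have hx1 : 1 / (2 * (d : ℝ)) ≤ 1 := by rw [div_le_one (by positivity)]; linarith
  obtain ⟨M, hM1, hM2⟩ := exists_nat_pow_near_of_lt_one (x := 1 / (2 * (d : ℝ))) (y := 1 - 1 / n)
    hx0 hx1 (by linarith) (by linarith)
  set q : ℝ := (1 - 1 / n) ^ (M + 1) with hq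
  have hq1 : 1 / (4 * (d : ℝ)) ≤ q := by
    have e1 : 1 / (2 * (d : ℝ)) * (1 / 2) ≤ (1 - 1 / n) ^ M * (1 - 1 / n) :=
      mul_le_mul hM2 (by linarith) (by norm_num) (hx0.le.trans hM2)
    have e2 : 1 / (4 * (d : ℝ)) = 1 / (2 * (d : ℝ)) * (1 / 2) := by field_simp; norm_num
    rw [e2, hq, pow_succ]; exact e1
  have hq0 : 0 < q := lt_of_lt_of_le (by positivity) hq1
  have hp2 : (1 - 2 / n) ^ (M + 1) ≤ q ^ 2 := by
    have e0 : 2 / n = 2 * (1 / n) := by ring
    have e1 : 1 - 2 / n ≤ (1 - 1 / n) ^ 2 := by rw [e0]; nlinarith [sq_nonneg (1 / n)]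
    calc (1 - 2 / n) ^ (M + 1) ≤ ((1 - 1 / n) ^ 2) ^ (M + 1) :=
          pow_le_pow_left₀ (by rw [e0]; linarith) e1 _
      _ = q ^ 2 := by rw [hq, ← pow_mul, ← pow_mul, mul_comm]
  have hW : var a / (8 * d) ≤ ∑ T, iterW n (M + 1) T.card * a T ^ 2 := by
    unfold var
    rw [sum_div]
    refine sum_le_sum fun T _ => ?_
    split_ifs with hT
    · simp [hT, iterW]
    by_cases hTd : d < T.card
    · simp [ha T hTd]
    have r1 : (1 : ℝ) ≤ T.card := by
      exact_mod_cast card_pos.2 (nonempty_iff_ne_empty.2 hT)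
    have r2 : (T.card : ℝ) ≤ d := by exact_mod_cast not_lt.1 hTd
    have e1 : (d : ℝ) * q ≤ 1 / 2 := by
      have := mul_le_mul_of_nonneg_left hM1.le (by linarith : (0 : ℝ) ≤ d)
      have e : (d : ℝ) * (1 / (2 * (d : ℝ))) = 1 / 2 := by field_simp
      linarith
    have e2 : ((T.card : ℝ) - 1) * q ≤ 1 / 2 := by nlinarith
    have e3 : (T.card : ℝ) * ((T.card : ℝ) - 1) * (1 - 2 / n) ^ (M + 1) ≤
        (T.card : ℝ) * ((T.card : ℝ) - 1) * q ^ 2 :=
      mul_le_mul_of_nonneg_left hp2 (mul_nonneg (by linarith) (by linarith))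
    have e4 : (T.card : ℝ) * q * (((T.card : ℝ) - 1) * q) ≤ (T.card : ℝ) * q * (1 / 2) :=
      mul_le_mul_of_nonneg_left e2 (by positivity)
    have e5 : 1 / (8 * (d : ℝ)) ≤ iterW n (M + 1) T.card := by
      have e : 1 / (8 * (d : ℝ)) = 1 / (4 * (d : ℝ)) / 2 := by field_simp; norm_num
      unfold iterW
      rw [← hq, e]
      nlinarith
    rw [div_eq_mul_one_div, mul_comm]
    exact mul_le_mul_of_nonneg_right e5 (sq_nonneg _)
  have hN : (M : ℝ) / n ≤ Real.log (2 * d) := by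
    have e1 : (1 - 1 / n) ^ M ≤ Real.exp (-(1 / n)) ^ M :=
      pow_le_pow_left₀ (by linarith) (by linarith [Real.add_one_le_exp (-(1 / n))]) M
    rw [← Real.exp_nat_mul] at e1
    have e2 := Real.log_le_log hx0 (hM2.trans e1)
    rw [Real.log_exp, one_div, Real.log_inv] at e2
    have e3 : (M : ℝ) * -(1 / n) = -((M : ℝ) / n) := by ring
    linarith
  have hE : (1 + α / n) ^ (M + 1) ≤ Real.exp (α * (Real.log (2 * d) + 1)) := by
    have e1 : (1 + α / n) ^ (M + 1) ≤ Real.exp (α / n) ^ (M + 1) :=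
      pow_le_pow_left₀ (by positivity) (by linarith [Real.add_one_le_exp (α / n)]) _
    rw [← Real.exp_nat_mul] at e1
    refine e1.trans (Real.exp_le_exp.2 ?_)
    have e2 : ((M + 1 : ℕ) : ℝ) * (α / n) = α * ((M : ℝ) / n + 1 / n) := by push_cast; ring
    rw [e2]
    exact mul_le_mul_of_nonneg_left (by linarith) hα
  have hP : 0 ≤ Psi β a + c0 :=
    add_nonneg (sum_nonneg fun j _ => Real.rpow_nonneg (inf_nonneg a j) _) hc0
  refine le_trans ?_ ((hind (M + 1) a ha hb).trans (mul_le_mul_of_nonneg_right hE hP))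
  calc var a ^ 3 / (2 ^ 18 * (d : ℝ) ^ 9)
      = (var a / (128 * (d : ℝ) ^ 4)) ^ 2 *
          (var a / (8 * d) - 8 * (d : ℝ) ^ 3 * (var a / (128 * (d : ℝ) ^ 4))) := by
        field_simp; ring
    _ ≤ _ := mul_le_mul_of_nonneg_left (by linarith) (sq_nonneg _)

end Pool.Agent.MP_9e8696_an.H8
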