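import Mathlib
import Pool.Agent.MP_9e8696_an.H8.Res
import Pool.Agent.MP_9e8696_an.H8.Moment
import Pool.Agent.MP_9e8696_an.H8.Boost

/-!
One step of the revealing process: growth of the potential.
-/

set_option linter.unusedSectionVars false

namespace Pool.Agent.MP_9e8696_an.H8

open Finset H67
open scoped BigOperators

variable {ι : Type*} [Fintype ι] [DecidableEq ι]

lemma two_point_pow (m δ β : ℝ) (hm : 0 ≤ m) (hδ : |δ| ≤ 1) (hβ0 : 0 < β) (hβ1 : β ≤ 1) :
    ((m * (1 + 1 * δ)) ^ (1 + β) + (m * (1 + (-1) * δ)) ^ (1 + β)) / 2 ≤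
      m ^ (1 + β) * (1 + β * δ ^ 2) := by
  have key : ∀ u : ℝ, -1 ≤ u → (m * (1 + u)) ^ (1 + β) ≤ m ^ (1 + β) * ((1 + u) * (1 + β * u)) := by
    intro u hu
    have h0 : 0 ≤ 1 + u := by linarith
    rw [Real.mul_rpow hm h0]
    refine mul_le_mul_of_nonneg_left ?_ (Real.rpow_nonneg hm _)
    rw [Real.rpow_add' h0 (by linarith), Real.rpow_one]
    exact mul_le_mul_of_nonneg_left
      (rpow_one_add_le_one_add_mul_self hu hβ0.le hβ1) h0
  have h1 := key (1 * δ) (by linarith [(abs_le.1 hδ).1])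
  have h2 := key ((-1) * δ) (by linarith [(abs_le.1 hδ).2])
  nlinarith

lemma step_gen (a : Finset ι → ℝ) (β : ℝ) (hβ0 : 0 < β) (hβ1 : β ≤ 1) :
    ∑ i, (Psi β (res i 1 a) + Psi β (res i (-1) a)) / 2 ≤
      Fintype.card ι * Psi β a +
        β * ∑ j, inf a j ^ (1 + β) * ∑ i, dl (sh {j} a) i ^ 2 := by
  have h1 : ∀ i, (Psi β (res i 1 a) + Psi β (res i (-1) a)) / 2 ≤
      ∑ j, inf a j ^ (1 + β) * (1 + β * dl (sh {j} a) i ^ 2) := by
    intro i
    unfold Psi
    rw [← sum_add_distrib, sum_div]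
    refine sum_le_sum fun j _ => ?_
    by_cases hij : i = j
    · subst hij
      rw [inf_res_self, inf_res_self, Real.zero_rpow (by linarith)]
      have := Real.rpow_nonneg (inf_nonneg a i) (1 + β)
      have h2 : 0 ≤ inf a i ^ (1 + β) * (1 + β * dl (sh {i} a) i ^ 2) := by positivity
      linarith
    · rw [inf_res i j hij 1 (by norm_num), inf_res i j hij (-1) (by norm_num)]
      exact two_point_pow _ _ β (inf_nonneg a j) (abs_dl_le _ _) hβ0 hβ1
  refine (sum_le_sum fun i _ => h1 i).trans (le_of_eq ?_)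
  rw [sum_comm]
  unfold Psi
  rw [mul_sum, mul_sum, ← sum_add_distrib]
  refine sum_congr rfl fun j _ => ?_
  rw [← mul_sum, sum_add_distrib, ← mul_sum]
  simp only [sum_const, card_univ, nsmul_eq_mul, mul_one]
  ring

lemma pow_split (m β : ℝ) (hm : 0 ≤ m) (hβ0 : 0 < β) : m ^ (1 + β) = m * m ^ β := by
  rw [Real.rpow_add' hm (by linarith), Real.rpow_one]

lemma hub_part {a : Finset ι → ℝ} {d : ℕ} (ha : DegLe a d) (β R : ℝ) (hβ0 : 0 < β) (hR : 1 ≤ R)
    (hRβ : 4 * (d : ℝ) ≤ R ^ β) :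
    ∑ j, ∑ i, (if inf a i < R * inf a j then 0 else inf a j ^ (1 + β) * dl (sh {j} a) i ^ 2) ≤
      Psi β a := by
  rw [sum_comm]
  unfold Psi
  refine sum_le_sum fun i _ => ?_
  have hR0 : 0 < R := by linarith
  have hRb : 0 < R ^ β := Real.rpow_pos_of_pos hR0 β
  have hmi := inf_nonneg a i
  have hmb := Real.rpow_nonneg hmi β
  have h1 : ∀ j, (if inf a i < R * inf a j then 0 else inf a j ^ (1 + β) * dl (sh {j} a) i ^ 2) ≤
      inf a i ^ β / R ^ β * (inf a j * dl (sh {j} a) i ^ 2) := by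
    intro j
    have hmj := inf_nonneg a j
    split_ifs with h
    · positivity
    · push Not at h
      rw [pow_split _ β hmj hβ0, ← Real.div_rpow hmi hR0.le]
      have h2 : inf a j ^ β ≤ (inf a i / R) ^ β :=
        Real.rpow_le_rpow hmj (by rw [le_div_iff₀ hR0]; linarith) hβ0.le
      have h3 : 0 ≤ inf a j * dl (sh {j} a) i ^ 2 := by positivity
      nlinarith
  refine (sum_le_sum fun j _ => h1 j).trans ?_
  rw [← mul_sum, pow_split _ β hmi hβ0]
  calc inf a i ^ β / R ^ β * ∑ j, inf a j * dl (sh {j} a) i ^ 2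
      ≤ inf a i ^ β / R ^ β * (4 * d * inf a i) :=
        mul_le_mul_of_nonneg_left (col_bound ha i) (by positivity)
    _ ≤ inf a i ^ β / R ^ β * (R ^ β * inf a i) :=
        mul_le_mul_of_nonneg_left (mul_le_mul_of_nonneg_right hRβ hmi) (by positivity)
    _ = inf a i * inf a i ^ β := by field_simp

lemma sum_inf_le_deg {a : Finset ι → ℝ} {d : ℕ} (ha : DegLe a d) (hb : Bdd a) :
    ∑ j, inf a j ≤ d := by
  have h1 := sum_inf_le a d ha
  have h2 := nrm_le_one hb
  have h3 : (0 : ℝ) ≤ d := Nat.cast_nonneg d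
  nlinarith

lemma boosted {a : Finset ι → ℝ} {d : ℕ} (hd : 1 ≤ d) (ha : DegLe a d) (hb : Bdd a)
    (R θ lam : ℝ) (hR : 1 ≤ R) (hθ : 0 < θ) (hlam : 8 * (d : ℝ) ≤ lam)
    (hT : 8 * ((d : ℝ) ^ 2 / θ) * Real.exp (3 * (d : ℝ) ^ 2 + 1) ≤ Real.exp (lam / (4 * d))) :
    ∑ j ∈ univ.filter (fun j => θ ≤ inf a j), inf a j *
      Real.exp ((∑ i ∈ univ.filter (fun i => inf a i < R * inf a j), dl (sh {j} a) i ^ 2) / 8) ≤
      Kb d (d * R) lam := by
  have hd' : (1 : ℝ) ≤ d := by exact_mod_cast hd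
  set J := univ.filter (fun j => θ ≤ inf a j) with hJ
  set b : ι → ι → ℝ := fun j i =>
    if i ∈ univ.filter (fun i => inf a i < R * inf a j) then dl (sh {j} a) i / 4 else 0 with hbdef
  have hb4 : ∀ j i, b j i ^ 2 ≤ dl (sh {j} a) i ^ 2 / 16 := by
    intro j i
    simp only [hbdef]
    split_ifs
    · exact le_of_eq (by ring)
    · have := sq_nonneg (dl (sh {j} a) i)
      linarith
  have hcard : (J.card : ℝ) ≤ d / θ := by
    rw [le_div_iff₀ hθ]
    calc (J.card : ℝ) * θ = ∑ _j ∈ J, θ := by simp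
      _ ≤ ∑ j ∈ J, inf a j := sum_le_sum fun j hj => (mem_filter.1 hj).2
      _ ≤ ∑ j, inf a j := sum_le_sum_of_subset_of_nonneg (subset_univ _) fun j _ _ => inf_nonneg a j
      _ ≤ d := sum_inf_le_deg ha hb
  refine le_trans (sum_le_sum fun j _ => jensen_boost (sh {j} a) _) ?_
  refine boost hd ha hb J b lam (d * R) hlam (by nlinarith) ?_ ?_ ?_ ?_ ?_
  · intro j i
    simp only [hbdef]
    split_ifs
    · rw [abs_div]
      have := abs_dl_le (sh {j} a) i
      rw [abs_of_pos (by norm_num : (0 : ℝ) < 4)]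
      linarith
    · simp
  · intro j
    simp only [hbdef, dl_self]
    simp
  · intro j _
    refine (sum_le_sum fun i _ => hb4 j i).trans ?_
    rw [← sum_div]
    have := row_bound ha j
    linarith
  · intro i
    have hmi := inf_nonneg a i
    have hc := col_bound ha i
    have hsub : ∑ j ∈ J, inf a j * dl (sh {j} a) i ^ 2 ≤ 4 * d * inf a i :=
      (sum_le_sum_of_subset_of_nonneg (subset_univ _) fun j _ _ =>
        mul_nonneg (inf_nonneg a j) (sq_nonneg _)).trans hc
    rcases hmi.eq_or_lt with h0 | hpos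
    · have h1 : θ * ∑ j ∈ J, b j i ^ 2 ≤ 0 := by
        rw [← h0, mul_zero] at hsub
        refine le_trans ?_ hsub
        rw [mul_sum]
        refine sum_le_sum fun j hj => ?_
        have h2 := (mem_filter.1 hj).2
        have h3 := hb4 j i
        have h4 := sq_nonneg (dl (sh {j} a) i)
        nlinarith
      have h2 : ∑ j ∈ J, b j i ^ 2 ≤ 0 := by
        by_contra hcon
        push Not at hcon
        nlinarith
      nlinarith
    · refine le_of_mul_le_mul_left ?_ hpos
      have h1 : inf a i * ∑ j ∈ J, b j i ^ 2 ≤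
          R / 16 * ∑ j ∈ J, inf a j * dl (sh {j} a) i ^ 2 := by
        rw [mul_sum, mul_sum]
        refine sum_le_sum fun j _ => ?_
        have hmj := inf_nonneg a j
        have h4 := sq_nonneg (dl (sh {j} a) i)
        simp only [hbdef, mem_filter, mem_univ, true_and]
        split_ifs with h
        · nlinarith
        · have : 0 ≤ R / 16 * (inf a j * dl (sh {j} a) i ^ 2) := by positivity
          linarith
      have h2 : R / 16 * ∑ j ∈ J, inf a j * dl (sh {j} a) i ^ 2 ≤ R / 16 * (4 * d * inf a i) :=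
        mul_le_mul_of_nonneg_left hsub (by positivity)
      have h3 : 0 ≤ inf a i * (d * R) := by positivity
      nlinarith
  · refine le_trans ?_ hT
    refine mul_le_mul_of_nonneg_right ?_ (Real.exp_pos _).le
    have : (d : ℝ) * J.card ≤ (d : ℝ) ^ 2 / θ := by
      calc (d : ℝ) * J.card ≤ d * (d / θ) := mul_le_mul_of_nonneg_left hcard (by linarith)
        _ = (d : ℝ) ^ 2 / θ := by ring
    linarith

lemma step {a : Finset ι → ℝ} {d : ℕ} (hd : 1 ≤ d) (ha : DegLe a d) (hb : Bdd a)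
    (β R θ lam l : ℝ) (hβ0 : 0 < β) (hβ1 : β ≤ 1) (hR : 1 ≤ R) (hRβ : 4 * (d : ℝ) ≤ R ^ β)
    (hθ : 0 < θ) (hl : 1 ≤ l) (hlam : 8 * (d : ℝ) ≤ lam)
    (hT : 8 * ((d : ℝ) ^ 2 / θ) * Real.exp (3 * (d : ℝ) ^ 2 + 1) ≤ Real.exp (lam / (4 * d))) :
    ∑ i, (Psi β (res i 1 a) + Psi β (res i (-1) a)) / 2 ≤
      Fintype.card ι * Psi β a +
        β * (9 * l * Psi β a + (4 * (d : ℝ) ^ 2 * θ ^ β + 8 * Kb d (d * R) lam * Real.exp (-l))) := by
  refine (step_gen a β hβ0 hβ1).trans ?_
  refine add_le_add le_rfl (mul_le_mul_of_nonneg_left ?_ hβ0.le)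
  have hd' : (1 : ℝ) ≤ d := by exact_mod_cast hd
  set L : ι → ℝ := fun j =>
    ∑ i ∈ univ.filter (fun i => inf a i < R * inf a j), dl (sh {j} a) i ^ 2 with hL
  have hL0 : ∀ j, 0 ≤ L j := fun j => sum_nonneg fun i _ => sq_nonneg _
  have hL4 : ∀ j, L j ≤ 4 * d := fun j =>
    (sum_le_sum_of_subset_of_nonneg (subset_univ _) fun i _ _ => sq_nonneg _).trans (row_bound ha j)
  have hsplit : ∑ j, inf a j ^ (1 + β) * ∑ i, dl (sh {j} a) i ^ 2 =
      ∑ j, ∑ i, (if inf a i < R * inf a j then 0 else inf a j ^ (1 + β) * dl (sh {j} a) i ^ 2) +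
        ∑ j, inf a j ^ (1 + β) * L j := by
    rw [← sum_add_distrib]
    refine sum_congr rfl fun j _ => ?_
    simp only [hL]
    rw [sum_filter, mul_sum, mul_sum, ← sum_add_distrib]
    refine sum_congr rfl fun i _ => ?_
    split_ifs <;> simp
  have hθb : 0 < θ ^ β := Real.rpow_pos_of_pos hθ β
  have hpt : ∀ j, inf a j ^ (1 + β) * L j ≤ 8 * l * inf a j ^ (1 + β) + 4 * d * θ ^ β * inf a j +
      8 * Real.exp (-l) * (if θ ≤ inf a j then inf a j * Real.exp (L j / 8) else 0) := by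
    intro j
    have hm := inf_nonneg a j
    have hm1 : inf a j ≤ 1 := (inf_le_nrm a j).trans (nrm_le_one hb)
    have hp := Real.rpow_nonneg hm (1 + β)
    have hq := Real.rpow_nonneg hm β
    have hs := pow_split _ β hm hβ0
    split_ifs with h
    · have h1 : L j / 8 ≤ l + Real.exp (-l) * Real.exp (L j / 8) := by
        rw [← Real.exp_add]
        have := Real.add_one_le_exp (-l + L j / 8)
        linarith
      have h2 : inf a j ^ (1 + β) ≤ inf a j := by
        rw [hs]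
        exact mul_le_of_le_one_right hm (Real.rpow_le_one hm hm1 hβ0.le)
      have h3 : 0 ≤ Real.exp (-l) * Real.exp (L j / 8) := by positivity
      have h4 : 0 ≤ 4 * d * θ ^ β * inf a j := by positivity
      nlinarith
    · push Not at h
      have h1 : inf a j ^ β ≤ θ ^ β := Real.rpow_le_rpow hm h.le hβ0.le
      have h2 : inf a j ^ β * L j ≤ θ ^ β * (4 * d) :=
        mul_le_mul h1 (hL4 j) (hL0 j) hθb.le
      have h3 : 0 ≤ 8 * l * inf a j ^ (1 + β) := by positivity
      have h4 : inf a j ^ (1 + β) * L j = inf a j * (inf a j ^ β * L j) := by rw [hs]; ring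
      have h5 := mul_le_mul_of_nonneg_left h2 hm
      nlinarith
  have hsum := sum_le_sum fun j (_ : j ∈ univ) => hpt j
  rw [sum_add_distrib, sum_add_distrib, ← mul_sum, ← mul_sum, ← mul_sum, ← sum_filter] at hsum
  have hbo := boosted hd ha hb R θ lam hR hθ hlam hT
  have hhub := hub_part ha β R hβ0 hR hRβ
  have hsi := sum_inf_le_deg ha hb
  have hP : 0 ≤ Psi β a := sum_nonneg fun j _ => Real.rpow_nonneg (inf_nonneg a j) _
  have e1 : 4 * d * θ ^ β * ∑ j, inf a j ≤ 4 * d * θ ^ β * d :=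
    mul_le_mul_of_nonneg_left hsi (by positivity)
  have e2 := mul_le_mul_of_nonneg_left hbo (by positivity : 0 ≤ 8 * Real.exp (-l))
  have e3 : Psi β a ≤ l * Psi β a := le_mul_of_one_le_left hP hl
  rw [hsplit]
  unfold Psi at *
  simp only [hL] at hsum ⊢
  nlinarith

end Pool.Agent.MP_9e8696_an.H8
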