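import Mathlib
import Pool.Agent.MP_9e8696_an.H8.Step
import Pool.Agent.MP_9e8696_an.H8.Iter

/-!
The revealing process with a moving cap on the influences.
-/

set_option linter.unusedSectionVars false

namespace Pool.Agent.MP_9e8696_an.H8

open Finset H67
open scoped BigOperators

variable {ι : Type*} [Fintype ι] [DecidableEq ι]

/-- Lower bound for the expected level one mass after `N` random restrictions. -/
noncomputable def Uw (N : ℕ) (a : Finset ι → ℝ) : ℝ :=
  ∑ T, iterW (Fintype.card ι) N T.card * a T ^ 2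

lemma Psi_one (a : Finset ι → ℝ) : Psi 1 a = ∑ j, inf a j ^ 2 := by
  unfold Psi
  refine sum_congr rfl fun j _ => ?_
  rw [show (1 : ℝ) + 1 = ((2 : ℕ) : ℝ) by norm_num, Real.rpow_natCast]

lemma inf_del (a : Finset ι → ℝ) (D : Finset ι) (j : ι) :
    inf (del D a) j ≤ if j ∈ D then 0 else inf a j := by
  rw [inf_eq]
  split_ifs with hj
  · refine le_of_eq (sum_eq_zero fun S _ => ?_)
    split_ifs with hS
    · have : ¬ Disjoint S D := not_disjoint_iff.2 ⟨j, hS, hj⟩
      simp [del, this]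
    · rfl
  · rw [inf_eq]
    refine sum_le_sum fun S _ => ?_
    split_ifs
    · unfold del
      split_ifs
      · exact le_rfl
      · simpa using sq_nonneg (a S)
    · exact le_rfl

lemma iterW_le (n : ℝ) (hn : 2 ≤ n) (N r : ℕ) : iterW n N r ≤ r := by
  have hn0 : 0 < n := by linarith
  have h1 : 1 / n ≤ 1 := by rw [div_le_one hn0]; linarith
  have h2 : 2 / n ≤ 1 := by rw [div_le_one hn0]; linarith
  have h3 : 0 < 1 / n := by positivity
  have e1 : (1 - 1 / n) ^ N ≤ 1 := pow_le_one₀ (by linarith) (by linarith)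
  have e2 : 0 ≤ (1 - 2 / n) ^ N := pow_nonneg (by linarith) _
  have e3 : 0 ≤ (r : ℝ) * ((r : ℝ) - 1) := by
    rcases Nat.eq_zero_or_pos r with h | h
    · simp [h]
    · have : (1 : ℝ) ≤ r := by exact_mod_cast h
      nlinarith
  have e4 := mul_nonneg e3 e2
  have e5 := mul_le_mul_of_nonneg_left e1 (Nat.cast_nonneg r : (0 : ℝ) ≤ r)
  unfold iterW
  linarith

lemma Uw_del {a : Finset ι → ℝ} {d : ℕ} (ha : DegLe a d) (hn : 2 ≤ Fintype.card ι) (N : ℕ)
    (D : Finset ι) : Uw N a ≤ Uw N (del D a) + d * ∑ j ∈ D, inf a j := by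
  have hn' : (2 : ℝ) ≤ Fintype.card ι := by exact_mod_cast hn
  have h := out_le a Dᶜ
  have h1 : (∑ j, if j ∈ Dᶜ then 0 else inf a j) = ∑ i ∈ D, inf a i := by
    simp only [mem_compl, ite_not]
    rw [← sum_filter]; simp
  rw [h1] at h
  refine le_trans ?_ (add_le_add le_rfl (mul_le_mul_of_nonneg_left h (Nat.cast_nonneg d)))
  unfold Uw
  rw [mul_sum, ← sum_add_distrib]
  refine sum_le_sum fun T _ => ?_
  unfold del
  by_cases hT : Disjoint T D
  · have : T ⊆ Dᶜ := subset_compl_iff_disjoint_right.2 hT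
    simp [hT, this]
  · have : ¬ T ⊆ Dᶜ := fun h => hT (subset_compl_iff_disjoint_right.1 h)
    simp only [hT, this, if_false]
    by_cases hd : d < T.card
    · simp [ha T hd]
    · have e1 := iterW_le _ hn' N T.card
      have e2 : (T.card : ℝ) ≤ d := by exact_mod_cast not_lt.1 hd
      have e3 := mul_le_mul_of_nonneg_right (e1.trans e2) (sq_nonneg (a T))
      simpa using e3

lemma Uw_succ (hn : 2 ≤ Fintype.card ι) (N : ℕ) (a : Finset ι → ℝ) :
    ∑ i, (Uw N (res i 1 a) + Uw N (res i (-1) a)) / 2 = Fintype.card ι * Uw (N + 1) a := by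
  have hn' : (2 : ℝ) ≤ Fintype.card ι := by exact_mod_cast hn
  have hw := weight_step (iterW (Fintype.card ι) N) a
  simp only [iterW_succ (Fintype.card ι : ℝ) (by linarith), mul_assoc, ← mul_sum] at hw
  exact hw

lemma Uw_zero {a : Finset ι → ℝ} {d : ℕ} (hd : 1 ≤ d) (ha : DegLe a d) (hb : Bdd a) (H : ℝ)
    (hH : ∀ j, inf a j ≤ H) : Uw 0 a ≤ 8 * (d : ℝ) ^ 3 * Real.sqrt H := by
  have h1 : Uw 0 a ≤ ∑ j, a {j} ^ 2 := by
    unfold Uw
    rw [← sum_card_one (fun S => a S ^ 2)]
    refine sum_le_sum fun T _ => ?_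
    split_ifs with h
    · simp [iterW, h]
    · refine mul_nonpos_of_nonpos_of_nonneg ?_ (sq_nonneg _)
      simp only [iterW, pow_zero, mul_one]
      rcases Nat.eq_zero_or_pos T.card with h0 | h0
      · simp [h0]
      · have h2 : (2 : ℝ) ≤ T.card := by exact_mod_cast (by omega : 2 ≤ T.card)
        nlinarith
  have h2 := iter_l1 hd ha hb
  have h3 : ∀ j, a {j} ^ 2 ≤ |a {j}| * Real.sqrt H := by
    intro j
    have e1 : a {j} ^ 2 ≤ inf a j := by
      rw [inf_eq]
      have := single_le_sum (f := fun S : Finset ι => if j ∈ S then a S ^ 2 else 0)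
        (fun S _ => by split_ifs <;> positivity) (mem_univ {j})
      simpa using this
    have e2 : |a {j}| ≤ Real.sqrt H := Real.abs_le_sqrt (e1.trans (hH j))
    calc a {j} ^ 2 = |a {j}| * |a {j}| := by rw [← sq, sq_abs]
      _ ≤ _ := mul_le_mul_of_nonneg_left e2 (abs_nonneg _)
  refine h1.trans ((sum_le_sum fun j _ => h3 j).trans ?_)
  rw [← sum_mul]
  exact mul_le_mul_of_nonneg_right h2 (Real.sqrt_nonneg _)

lemma step_cap {a : Finset ι → ℝ} {d : ℕ} (hd : 1 ≤ d) (ha : DegLe a d) (hb : Bdd a)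
    (R h η lam l : ℝ) (hR : 1 ≤ R) (hη : 0 < η) (hh : η ≤ h) (hl : 1 ≤ l)
    (hlam : 8 * (d : ℝ) ≤ lam)
    (hT : 8 * ((d : ℝ) ^ 2 / η) * Real.exp (3 * (d : ℝ) ^ 2 + 1) ≤ Real.exp (lam / (4 * d)))
    (hcap : ∀ j, inf a j ≤ h * R) :
    ∑ i, (Psi 1 (res i 1 a) + Psi 1 (res i (-1) a)) / 2 ≤
      Fintype.card ι * Psi 1 a + 8 * l * (Psi 1 a +
        h * R * (4 * (d : ℝ) ^ 2 / R + 8 * Kb d (d * (2 * R)) lam * Real.exp (-l))) := by
  refine (step_gen a 1 one_pos le_rfl).trans (add_le_add le_rfl ?_)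
  have hd' : (1 : ℝ) ≤ d := by exact_mod_cast hd
  have hh0 : 0 < h := by linarith
  have hR0 : 0 < R := by linarith
  have hT' : 8 * ((d : ℝ) ^ 2 / h) * Real.exp (3 * (d : ℝ) ^ 2 + 1) ≤ Real.exp (lam / (4 * d)) := by
    refine le_trans ?_ hT
    gcongr
  have hbo := boosted hd ha hb (2 * R) h lam (by linarith) hh0 hlam hT'
  set L : ι → ℝ := fun j => ∑ i, dl (sh {j} a) i ^ 2 with hL
  have hL0 : ∀ j, 0 ≤ L j := fun j => sum_nonneg fun i _ => sq_nonneg _
  have hL4 : ∀ j, L j ≤ 4 * d := fun j => row_bound ha j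
  have hbo' : ∑ j ∈ univ.filter (fun j => h ≤ inf a j), inf a j * Real.exp (L j / 8) ≤
      Kb d (d * (2 * R)) lam := by
    refine le_trans (le_of_eq (sum_congr rfl fun j hj => ?_)) hbo
    have hj' := (mem_filter.1 hj).2
    rw [filter_true_of_mem fun i _ => by nlinarith [hcap i]]
  have hpt : ∀ j, inf a j ^ 2 * L j ≤ 8 * l * inf a j ^ 2 + 4 * d * h * inf a j +
      8 * (h * R) * Real.exp (-l) * (if h ≤ inf a j then inf a j * Real.exp (L j / 8) else 0) := by
    intro j
    have hm := inf_nonneg a j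
    split_ifs with hj
    · have h1 : L j / 8 ≤ l + Real.exp (-l) * Real.exp (L j / 8) := by
        rw [← Real.exp_add]
        have := Real.add_one_le_exp (-l + L j / 8)
        linarith
      have h2 : inf a j ^ 2 ≤ h * R * inf a j := by nlinarith [hcap j]
      have h3 : 0 ≤ Real.exp (-l) * Real.exp (L j / 8) := by positivity
      have h4 : 0 ≤ 4 * d * h * inf a j := by positivity
      have h5 := mul_le_mul_of_nonneg_left h1 (sq_nonneg (inf a j))
      have h6 := mul_le_mul_of_nonneg_right h2 h3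
      nlinarith
    · push Not at hj
      have h2 : inf a j * L j ≤ h * (4 * d) := mul_le_mul hj.le (hL4 j) (hL0 j) hh0.le
      have h3 : 0 ≤ 8 * l * inf a j ^ 2 := by positivity
      have h5 := mul_le_mul_of_nonneg_left h2 hm
      nlinarith
  have hsum := sum_le_sum fun j (_ : j ∈ univ) => hpt j
  rw [sum_add_distrib, sum_add_distrib, ← mul_sum, ← mul_sum, ← mul_sum, ← sum_filter] at hsum
  have hsi := sum_inf_le_deg ha hb
  have e1 : 4 * d * h * ∑ j, inf a j ≤ 4 * d * h * d :=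
    mul_le_mul_of_nonneg_left hsi (by positivity)
  have e2 := mul_le_mul_of_nonneg_left hbo' (by positivity : 0 ≤ 8 * (h * R) * Real.exp (-l))
  have hK : 0 ≤ Kb d (d * (2 * R)) lam := by unfold Kb; positivity
  have e3 : h * R * (4 * (d : ℝ) ^ 2 / R + 8 * Kb d (d * (2 * R)) lam * Real.exp (-l)) =
      4 * d * h * d + 8 * (h * R) * Real.exp (-l) * Kb d (d * (2 * R)) lam := by
    field_simp
  have e4 : 0 ≤ 4 * d * h * d + 8 * (h * R) * Real.exp (-l) * Kb d (d * (2 * R)) lam := by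
    positivity
  have e5 : ∑ j, inf a j ^ ((1 : ℝ) + 1) * ∑ i, dl (sh {j} a) i ^ 2 = ∑ j, inf a j ^ 2 * L j := by
    refine sum_congr rfl fun j _ => ?_
    rw [show (1 : ℝ) + 1 = ((2 : ℕ) : ℝ) by norm_num, Real.rpow_natCast]
  rw [e5, e3, Psi_one, one_mul]
  nlinarith

lemma phase {d : ℕ} (hn : 2 ≤ Fintype.card ι) (H α c0 B : ℝ) (hH : 0 < H) (hα : 0 ≤ α)
    (hc0 : 0 ≤ c0) (N : ℕ)
    (hstep : ∀ a : Finset ι → ℝ, DegLe a d → Bdd a → (∀ j, inf a j ≤ H) →
      ∑ i, (Psi 1 (res i 1 a) + Psi 1 (res i (-1) a)) / 2 ≤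
        Fintype.card ι * Psi 1 a + α * (Psi 1 a + H * c0))
    (hB : ∀ a : Finset ι → ℝ, DegLe a d → Bdd a → (∀ j, inf a j ≤ H) → Uw N a ≤ B) (M : ℕ) :
    ∀ a : Finset ι → ℝ, DegLe a d → Bdd a → (∀ j, inf a j ≤ H) →
      H * Uw (N + M) a ≤ H * B + d * (1 + α / Fintype.card ι) ^ M * (Psi 1 a + H * c0) := by
  have hn' : (2 : ℝ) ≤ Fintype.card ι := by exact_mod_cast hn
  have hP0 : ∀ a : Finset ι → ℝ, 0 ≤ Psi 1 a := fun a =>
    sum_nonneg fun j _ => Real.rpow_nonneg (inf_nonneg a j) _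
  induction M with
  | zero =>
    intro a ha hb hc
    have h1 := mul_le_mul_of_nonneg_left (hB a ha hb hc) hH.le
    have h2 : 0 ≤ (d : ℝ) * (1 + α / Fintype.card ι) ^ 0 * (Psi 1 a + H * c0) := by
      have := hP0 a
      positivity
    rw [add_zero]; linarith
  | succ M ih =>
    intro a ha hb hc
    set n : ℝ := (Fintype.card ι : ℝ) with hndef
    have hn0 : 0 < n := by linarith
    set G := (1 + α / n) ^ M with hG
    have hG1 : 1 ≤ G := one_le_pow₀ (by have : 0 ≤ α / n := by positivity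
                                        linarith)
    have hd0 : (0 : ℝ) ≤ d := Nat.cast_nonneg d
    have key : ∀ e : Finset ι → ℝ, DegLe e d → Bdd e →
        H * Uw (N + M) e ≤ H * B + d * G * (Psi 1 e + H * c0) := by
      intro e he hbe
      set D := univ.filter (fun j => H < inf e j) with hD
      have h1 := Uw_del he hn (N + M) D
      have h2 := ih (del D e) (he.del D) (hbe.del D) (fun j => by
        refine (inf_del e D j).trans ?_
        split_ifs with hj
        · exact hH.le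
        · simpa [hD] using hj)
      have h3 : Psi 1 (del D e) + H * ∑ j ∈ D, inf e j ≤ Psi 1 e := by
        rw [Psi_one, Psi_one, hD, sum_filter, mul_sum, ← sum_add_distrib]
        refine sum_le_sum fun j _ => ?_
        have e1 := inf_del e D j
        have e2 := inf_nonneg (del D e) j
        have e3 := inf_nonneg e j
        simp only [hD, mem_filter, mem_univ, true_and] at e1
        rw [← hD] at e1
        rw [← hD]
        split_ifs with hj
        · rw [if_pos hj] at e1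
          have : inf (del D e) j = 0 := le_antisymm e1 e2
          rw [this]; nlinarith
        · rw [if_neg hj] at e1
          nlinarith
      have h4 : 0 ≤ H * ∑ j ∈ D, inf e j :=
        mul_nonneg hH.le (sum_nonneg fun j _ => inf_nonneg e j)
      have h5 := mul_le_mul_of_nonneg_left h1 hH.le
      have h6 := mul_le_mul_of_nonneg_left h3 (mul_nonneg hd0 (by linarith : 0 ≤ G))
      have h7 := mul_nonneg (mul_nonneg hd0 h4) (by linarith : 0 ≤ G - 1)
      nlinarith
    have hw := Uw_succ hn (N + M) a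
    have hs := hstep a ha hb hc
    rw [← hndef] at hw
    have hi : ∀ i, H * ((Uw (N + M) (res i 1 a) + Uw (N + M) (res i (-1) a)) / 2) ≤
        H * B + d * G * ((Psi 1 (res i 1 a) + Psi 1 (res i (-1) a)) / 2 + H * c0) := by
      intro i
      have e1 := key _ (degLe_res ha i 1) (bdd_res hb i 1 (by simp))
      have e2 := key _ (degLe_res ha i (-1)) (bdd_res hb i (-1) (by simp))
      linarith
    have hsum := sum_le_sum fun i (_ : i ∈ (univ : Finset ι)) => hi i
    rw [← mul_sum, sum_add_distrib, ← mul_sum, ← mul_sum, sum_add_distrib, hw] at hsum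
    simp only [sum_const, card_univ, nsmul_eq_mul] at hsum
    rw [← hndef] at hsum
    have h2 : d * G * (∑ i, (Psi 1 (res i 1 a) + Psi 1 (res i (-1) a)) / 2 + n * (H * c0)) ≤
        d * G * (n * Psi 1 a + α * (Psi 1 a + H * c0) + n * (H * c0)) :=
      mul_le_mul_of_nonneg_left (by linarith) (mul_nonneg hd0 (by linarith))
    refine le_of_mul_le_mul_left ?_ hn0
    have h3 : n * (H * B + d * (1 + α / n) ^ (M + 1) * (Psi 1 a + H * c0)) =
        H * (n * B) + d * G * (n * Psi 1 a + α * (Psi 1 a + H * c0) + n * (H * c0)) := by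
      rw [pow_succ, ← hG]; field_simp; ring
    rw [h3, ← add_assoc N M 1]
    linarith

lemma phases {d : ℕ} (hd : 1 ≤ d) (hn : 2 ≤ Fintype.card ι) (R η lam l : ℝ) (hR : 1 ≤ R)
    (hη : 0 < η) (hl : 1 ≤ l) (hlam : 8 * (d : ℝ) ≤ lam)
    (hT : 8 * ((d : ℝ) ^ 2 / η) * Real.exp (3 * (d : ℝ) ^ 2 + 1) ≤ Real.exp (lam / (4 * d)))
    (k : ℕ) : ∀ N ≤ k * (Fintype.card ι / 64), ∀ h, η ≤ h → ∀ a : Finset ι → ℝ, DegLe a d →
      Bdd a → (∀ j, inf a j ≤ h) → Uw N a ≤ 8 * (d : ℝ) ^ 3 * Real.sqrt (h * R ^ k) +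
        k * (d * Real.exp (l / 8) *
          (5 * (d : ℝ) ^ 2 / R + 8 * Kb d (d * (2 * R)) lam * Real.exp (-l))) := by
  have hn' : (2 : ℝ) ≤ Fintype.card ι := by exact_mod_cast hn
  have hd' : (1 : ℝ) ≤ d := by exact_mod_cast hd
  have hR0 : 0 < R := by linarith
  have hK : 0 ≤ Kb d (d * (2 * R)) lam := by unfold Kb; positivity
  induction k with
  | zero =>
    intro N hN h _ a ha hb hc
    have : N = 0 := by omega
    subst this
    simpa using Uw_zero hd ha hb h hc
  | succ k ih =>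
    intro N hN h hh a ha hb hc
    have hh0 : 0 < h := by linarith
    have hhR : h ≤ h * R := le_mul_of_one_le_right hh0.le hR
    set M := min N (Fintype.card ι / 64) with hM
    have hNM : N - M ≤ k * (Fintype.card ι / 64) := by
      rw [add_mul, one_mul] at hN
      omega
    have hp := phase hn (h * R) (8 * l)
      (4 * (d : ℝ) ^ 2 / R + 8 * Kb d (d * (2 * R)) lam * Real.exp (-l)) _ (by positivity)
      (by positivity) (by positivity) (N - M)
      (fun e he hbe hce => step_cap hd he hbe R h η lam l hR hη hh hl hlam hT hce)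
      (fun e he hbe hce => ih (N - M) hNM (h * R) (hh.trans hhR) e he hbe hce) M a ha hb
      (fun j => (hc j).trans hhR)
    rw [show N - M + M = N by omega] at hp
    have hG : (1 + 8 * l / Fintype.card ι) ^ M ≤ Real.exp (l / 8) := by
      have e1 : (1 + 8 * l / Fintype.card ι) ^ M ≤ Real.exp (8 * l / Fintype.card ι) ^ M :=
        pow_le_pow_left₀ (by positivity)
          (by linarith [Real.add_one_le_exp (8 * l / Fintype.card ι)]) _
      rw [← Real.exp_nat_mul] at e1
      refine e1.trans (Real.exp_le_exp.2 ?_)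
      have e2 : (64 : ℝ) * M ≤ Fintype.card ι := by
        exact_mod_cast (by omega : 64 * M ≤ Fintype.card ι)
      rw [← mul_div_assoc, div_le_div_iff₀ (by linarith) (by norm_num)]
      nlinarith
    have hP : Psi 1 a ≤ h * R * ((d : ℝ) ^ 2 / R) := by
      rw [Psi_one]
      calc ∑ j, inf a j ^ 2 ≤ ∑ j, h * inf a j :=
            sum_le_sum fun j _ => by nlinarith [hc j, inf_nonneg a j]
        _ = h * ∑ j, inf a j := by rw [mul_sum]
        _ ≤ h * (d : ℝ) ^ 2 :=
            mul_le_mul_of_nonneg_left ((sum_inf_le_deg ha hb).trans (by nlinarith)) hh0.le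
        _ = h * R * ((d : ℝ) ^ 2 / R) := by field_simp
    have hP0 : 0 ≤ Psi 1 a := sum_nonneg fun j _ => Real.rpow_nonneg (inf_nonneg a j) _
    have h4 : (d : ℝ) * (1 + 8 * l / Fintype.card ι) ^ M * (Psi 1 a + h * R *
        (4 * (d : ℝ) ^ 2 / R + 8 * Kb d (d * (2 * R)) lam * Real.exp (-l))) ≤
        d * Real.exp (l / 8) * (h * R * ((d : ℝ) ^ 2 / R) + h * R *
        (4 * (d : ℝ) ^ 2 / R + 8 * Kb d (d * (2 * R)) lam * Real.exp (-l))) := by
      gcongr
    refine le_of_mul_le_mul_left (hp.trans ((add_le_add le_rfl h4).trans (le_of_eq ?_)))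
      (by positivity : 0 < h * R)
    rw [pow_succ' R k, ← mul_assoc h R]
    push_cast
    ring

lemma window {d : ℕ} (hd : 1 ≤ d) (hn : 2 ≤ Fintype.card ι) {a : Finset ι → ℝ} (ha : DegLe a d) :
    ∃ N : ℕ, var a / (8 * d) ≤ Uw N a ∧ (N : ℝ) ≤ Fintype.card ι * (Real.log (2 * d) + 1) := by
  have hd' : (1 : ℝ) ≤ d := by exact_mod_cast hd
  have hn' : (2 : ℝ) ≤ Fintype.card ι := by exact_mod_cast hn
  unfold Uw
  set n : ℝ := (Fintype.card ι : ℝ) with hndef
  have hn0 : 0 < n := by linarith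
  have hin : 1 / n ≤ 1 / 2 := one_div_le_one_div_of_le (by norm_num) hn'
  have hin0 : 0 < 1 / n := by positivity
  have hx0 : 0 < 1 / (2 * (d : ℝ)) := by positivity
  have hx1 : 1 / (2 * (d : ℝ)) ≤ 1 := by rw [div_le_one (by positivity)]; linarith
  obtain ⟨M, hM1, hM2⟩ := exists_nat_pow_near_of_lt_one (x := 1 / (2 * (d : ℝ))) (y := 1 - 1 / n)
    hx0 hx1 (by linarith) (by linarith)
  set q : ℝ := (1 - 1 / n) ^ (M + 1) with hq
  have hq1 : 1 / (4 * (d : ℝ)) ≤ q := by
    have e1 : 1 / (2 * (d : ℝ)) * (1 / 2) ≤ (1 - 1 / n) ^ M * (1 - 1 / n) :=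
      mul_le_mul hM2 (by linarith) (by norm_num) (hx0.le.trans hM2)
    have e2 : 1 / (4 * (d : ℝ)) = 1 / (2 * (d : ℝ)) * (1 / 2) := by field_simp; norm_num
    rw [e2, hq, pow_succ]; exact e1
  have hq0 : 0 < q := lt_of_lt_of_le (by positivity) hq1
  have hp2 : (1 - 2 / n) ^ (M + 1) ≤ q ^ 2 := by
    have e0 : 2 / n = 2 * (1 / n) := by ring
    have e1 : 1 - 2 / n ≤ (1 - 1 / n) ^ 2 := by rw [e0]; nlinarith [sq_nonneg (1 / n)]
    calc (1 - 2 / n) ^ (M + 1) ≤ ((1 - 1 / n) ^ 2) ^ (M + 1) :=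
          pow_le_pow_left₀ (by rw [e0]; linarith) e1 _
      _ = q ^ 2 := by rw [hq, ← pow_mul, ← pow_mul, mul_comm]
  have hW : var a / (8 * d) ≤ ∑ T, iterW n (M + 1) T.card * a T ^ 2 := by
    unfold var
    rw [sum_div]
    refine sum_le_sum fun T _ => ?_
    split_ifs with hT
    · simp [hT, iterW]
    by_cases hTd : d < T.card
    · simp [ha T hTd]
    have r1 : (1 : ℝ) ≤ T.card := by
      exact_mod_cast card_pos.2 (nonempty_iff_ne_empty.2 hT)
    have r2 : (T.card : ℝ) ≤ d := by exact_mod_cast not_lt.1 hTd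
    have e1 : (d : ℝ) * q ≤ 1 / 2 := by
      have := mul_le_mul_of_nonneg_left hM1.le (by linarith : (0 : ℝ) ≤ d)
      have e : (d : ℝ) * (1 / (2 * (d : ℝ))) = 1 / 2 := by field_simp
      linarith
    have e2 : ((T.card : ℝ) - 1) * q ≤ 1 / 2 := by nlinarith
    have e3 : (T.card : ℝ) * ((T.card : ℝ) - 1) * (1 - 2 / n) ^ (M + 1) ≤
        (T.card : ℝ) * ((T.card : ℝ) - 1) * q ^ 2 :=
      mul_le_mul_of_nonneg_left hp2 (mul_nonneg (by linarith) (by linarith))
    have e4 : (T.card : ℝ) * q * (((T.card : ℝ) - 1) * q) ≤ (T.card : ℝ) * q * (1 / 2) :=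
      mul_le_mul_of_nonneg_left e2 (by positivity)
    have e5 : 1 / (8 * (d : ℝ)) ≤ iterW n (M + 1) T.card := by
      have e : 1 / (8 * (d : ℝ)) = 1 / (4 * (d : ℝ)) / 2 := by field_simp; norm_num
      unfold iterW
      rw [← hq, e]
      nlinarith
    rw [div_eq_mul_one_div, mul_comm]
    exact mul_le_mul_of_nonneg_right e5 (sq_nonneg _)
  have hN : (M : ℝ) / n ≤ Real.log (2 * d) := by
    have e1 : (1 - 1 / n) ^ M ≤ Real.exp (-(1 / n)) ^ M :=
      pow_le_pow_left₀ (by linarith) (by linarith [Real.add_one_le_exp (-(1 / n))]) M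
    rw [← Real.exp_nat_mul] at e1
    have e2 := Real.log_le_log hx0 (hM2.trans e1)
    rw [Real.log_exp, one_div, Real.log_inv] at e2
    have e3 : (M : ℝ) * -(1 / n) = -((M : ℝ) / n) := by ring
    linarith
  refine ⟨M + 1, hW, ?_⟩
  rw [div_le_iff₀ hn0] at hN
  push_cast
  nlinarith

end Pool.Agent.MP_9e8696_an.H8
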