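import Mathlib
import Pool.Agent.MP_9e8696_an.H8.Defs

/-!
Choice of the parameters for the quasi-polynomial influence bound.
-/

namespace Pool.Agent.MP_9e8696_an.H8

namespace Num

lemma Kb_le (d R lam : ℝ) (hd : 1 ≤ d) (hR : 1 ≤ R) (hl : 1 ≤ lam) :
    Kb d (d * R) lam ≤ 176 * d ^ 5 * R ^ 2 * lam ^ 6 := by
  unfold Kb
  have h1 : 1 ≤ lam ^ 2 := one_le_pow₀ hl
  have h2 : 1 ≤ d * lam ^ 2 := one_le_mul_of_one_le_of_one_le hd h1
  have h3 : 1 ≤ d * R * lam ^ 2 :=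
    one_le_mul_of_one_le_of_one_le (one_le_mul_of_one_le_of_one_le hd hR) h1
  have h4 : 0 ≤ 44 * d ^ 2 * lam ^ 2 * (d * R) := by positivity
  calc (d * lam ^ 2 + 1) * (d * R * lam ^ 2 + 1) * (44 * d ^ 2 * lam ^ 2 * (d * R))
      ≤ (2 * (d * lam ^ 2)) * (2 * (d * R * lam ^ 2)) * (44 * d ^ 2 * lam ^ 2 * (d * R)) := by
        gcongr <;> linarith
    _ = 176 * d ^ 5 * R ^ 2 * lam ^ 6 := by ring

lemma one_le_Kb (d R lam : ℝ) (hd : 1 ≤ d) (hR : 1 ≤ R) (hl : 1 ≤ lam) :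
    1 ≤ Kb d (d * R) lam := by
  unfold Kb
  have h1 : 1 ≤ lam ^ 2 := one_le_pow₀ hl
  have h0 : 1 ≤ d ^ 2 := one_le_pow₀ hd
  have h5 : 1 ≤ d * R := one_le_mul_of_one_le_of_one_le hd hR
  have h2 : 1 ≤ d * lam ^ 2 + 1 := by nlinarith
  have h3 : 1 ≤ d * R * lam ^ 2 + 1 := by nlinarith
  have h4 : 1 ≤ 44 * d ^ 2 * lam ^ 2 * (d * R) := by
    have : 1 ≤ d ^ 2 * lam ^ 2 * (d * R) :=
      one_le_mul_of_one_le_of_one_le (one_le_mul_of_one_le_of_one_le h0 h1) h5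
    nlinarith
  exact one_le_mul_of_one_le_of_one_le (one_le_mul_of_one_le_of_one_le h2 h3) h4

lemma key (d u w L R lam : ℝ) (hd : 1 ≤ d) (hu : 2 / 3 ≤ u) (hdu : d ≤ Real.exp u) (hw : 0 ≤ w)
    (hL : L = 10 ^ 6 * (u * w + u ^ 3)) (hR1 : 1 ≤ R) (hR : R ≤ Real.exp (90 * u ^ 2))
    (hl1 : 1 ≤ lam) (hl : lam ≤ 48 * d ^ 3 * (1 + L)) :
    160 * d ^ 2 * Kb d (d * R) lam * Real.exp (-(L / (45 * u))) <
      (Real.exp (-w) ^ 3 / (2 ^ 18 * d ^ 9)) ^ 2 := by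
  have hu0 : 0 < u := by linarith
  have hd0 : 0 < d := by linarith
  have hL0 : 0 ≤ L := by rw [hL]; positivity
  obtain ⟨x, hx⟩ : ∃ x, x = L / (540 * u) := ⟨_, rfl⟩
  have hx0 : 0 ≤ x := by rw [hx]; positivity
  have hLx : L = 540 * u * x := by rw [hx]; field_simp
  have hx' : x = 10 ^ 6 / 540 * (w + u ^ 2) := by rw [hx, hL]; field_simp
  have hue : u ≤ Real.exp u := by linarith [Real.add_one_le_exp u]
  have h1 : 1 + L ≤ 540 * Real.exp u * Real.exp x := by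
    have h := Real.add_one_le_exp x
    calc 1 + L ≤ 540 * u * (x + 1) := by rw [hLx]; nlinarith
      _ ≤ 540 * Real.exp u * Real.exp x := by gcongr
  have h2 : lam ≤ 48 * Real.exp u ^ 3 * (540 * Real.exp u * Real.exp x) := by
    refine hl.trans ?_
    gcongr
  have h3 : Kb d (d * R) lam ≤ 176 * Real.exp u ^ 5 * Real.exp (90 * u ^ 2) ^ 2 *
      (48 * Real.exp u ^ 3 * (540 * Real.exp u * Real.exp x)) ^ 6 := by
    refine (Kb_le d R lam hd hR1 hl1).trans ?_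
    gcongr
  have h4 : Real.exp (-(L / (45 * u))) = (Real.exp x ^ 12)⁻¹ := by
    rw [← Real.exp_nat_mul, ← Real.exp_neg]
    congr 1
    rw [hLx]; field_simp; push_cast; ring
  have h5 : (160 * 176 * 48 ^ 6 * 540 ^ 6 * 2 ^ 36 : ℝ) ≤ Real.exp 1 ^ 140 := by
    have h : (2 : ℝ) ≤ Real.exp 1 := by linarith [Real.add_one_le_exp (1 : ℝ)]
    calc (160 * 176 * 48 ^ 6 * 540 ^ 6 * 2 ^ 36 : ℝ) ≤ 2 ^ 140 := by norm_num
      _ ≤ Real.exp 1 ^ 140 := by gcongr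
  have h6 : Real.exp 1 ^ 140 * Real.exp u ^ 49 * Real.exp (90 * u ^ 2) ^ 2 * Real.exp w ^ 6 <
      Real.exp x ^ 6 := by
    simp only [← Real.exp_nat_mul, ← Real.exp_add]
    apply Real.exp_lt_exp.mpr
    rw [hx']
    push_cast
    nlinarith [mul_self_nonneg (u - 2 / 3), mul_nonneg (sub_nonneg.mpr hu) hu0.le]
  have hKb : 0 ≤ Kb d (d * R) lam := le_trans zero_le_one (one_le_Kb d R lam hd hR1 hl1)
  have hX : 0 < Real.exp x := Real.exp_pos x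
  have hU : 0 < Real.exp u := Real.exp_pos u
  have hW : 0 < Real.exp w := Real.exp_pos w
  have hQ : 0 < Real.exp (90 * u ^ 2) := Real.exp_pos _
  rw [h4, Real.exp_neg]
  generalize Real.exp x = X at *
  generalize Real.exp u = U at *
  generalize Real.exp w = W at *
  generalize Real.exp (90 * u ^ 2) = Q at *
  have h7 : (160 * 176 * 48 ^ 6 * 540 ^ 6 * 2 ^ 36 : ℝ) * U ^ 49 * Q ^ 2 * W ^ 6 < X ^ 6 := by
    refine lt_of_le_of_lt ?_ h6
    gcongr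
  calc 160 * d ^ 2 * Kb d (d * R) lam * (X ^ 12)⁻¹
      ≤ 160 * U ^ 2 * (176 * U ^ 5 * Q ^ 2 * (48 * U ^ 3 * (540 * U * X)) ^ 6) * (X ^ 12)⁻¹ := by
        gcongr
    _ = ((160 * 176 * 48 ^ 6 * 540 ^ 6 * 2 ^ 36 : ℝ) * U ^ 49 * Q ^ 2 * W ^ 6) *
          (W⁻¹ ^ 3 / (2 ^ 18 * U ^ 9)) ^ 2 / X ^ 6 := by
        field_simp
    _ < X ^ 6 * (W⁻¹ ^ 3 / (2 ^ 18 * U ^ 9)) ^ 2 / X ^ 6 := by
        gcongr
    _ = (W⁻¹ ^ 3 / (2 ^ 18 * U ^ 9)) ^ 2 := by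
        field_simp
    _ ≤ (W⁻¹ ^ 3 / (2 ^ 18 * d ^ 9)) ^ 2 := by
        gcongr

end Num

lemma num (d : ℕ) (hd : 1 ≤ d) (v : ℝ) (hv0 : 0 < v) (hv1 : v ≤ 1) :
    ∃ β R lam l : ℝ, 0 < β ∧ β ≤ 1 ∧ 1 ≤ R ∧ 4 * (d : ℝ) ≤ R ^ β ∧ 1 ≤ l ∧ 8 * (d : ℝ) ≤ lam ∧
      8 * ((d : ℝ) ^ 2 /
          (v ^ (10 ^ 6 * Real.log (2 * d)) * Real.exp (-(10 ^ 6 * Real.log (2 * d) ^ 3)))) *
        Real.exp (3 * (d : ℝ) ^ 2 + 1) ≤ Real.exp (lam / (4 * d)) ∧
      Real.exp (9 * l * β * (Real.log (2 * d) + 1)) *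
          (5 * (d : ℝ) ^ 2 *
            (v ^ (10 ^ 6 * Real.log (2 * d)) * Real.exp (-(10 ^ 6 * Real.log (2 * d) ^ 3))) ^ β +
            8 * Kb d (d * R) lam * Real.exp (-l)) <
        v ^ 3 / (2 ^ 18 * (d : ℝ) ^ 9) := by
  have hd1 : (1 : ℝ) ≤ d := by exact_mod_cast hd
  generalize (d : ℝ) = D at *
  have hD0 : 0 < D := by linarith
  obtain ⟨u, hu⟩ : ∃ u, u = Real.log (2 * D) := ⟨_, rfl⟩
  obtain ⟨w, hw⟩ : ∃ w, w = -Real.log v := ⟨_, rfl⟩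
  rw [← hu]
  have hl2 : Real.log 2 ≤ u := by
    rw [hu]; exact Real.log_le_log (by norm_num) (by linarith)
  have hu23 : 2 / 3 ≤ u := by linarith [Real.log_two_gt_d9]
  have hu0 : 0 < u := by linarith
  have hw0 : 0 ≤ w := by rw [hw]; linarith [Real.log_nonpos hv0.le hv1]
  have hvw : v = Real.exp (-w) := by rw [hw, neg_neg, Real.exp_log hv0]
  have hDu : D ≤ Real.exp u := by rw [hu, Real.exp_log (by linarith)]; linarith
  obtain ⟨L, hL⟩ : ∃ L, L = 10 ^ 6 * (u * w + u ^ 3) := ⟨_, rfl⟩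
  have hL0 : 0 ≤ L := by rw [hL]; positivity
  have heta : v ^ (10 ^ 6 * u) * Real.exp (-(10 ^ 6 * u ^ 3)) = Real.exp (-L) := by
    rw [hvw, ← Real.exp_mul, ← Real.exp_add, hL]
    congr 1
    ring
  rw [heta]
  have hs0 : 0 < u + 1 := by linarith
  have hlog4 : Real.log (4 * D) = Real.log 2 + u := by
    rw [hu, ← Real.log_mul (by norm_num) (by linarith)]
    congr 1
    ring
  have hlog2 : 0 < Real.log 2 := Real.log_pos (by norm_num)
  obtain ⟨R, hR⟩ : ∃ R, R = Real.exp (18 * (u + 1) * Real.log (4 * D)) := ⟨_, rfl⟩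
  obtain ⟨lam, hlam⟩ : ∃ lam, lam = 4 * D * (11 * D ^ 2 + 1 + L) := ⟨_, rfl⟩
  have hD2 : 1 ≤ D ^ 2 := one_le_pow₀ hd1
  have hR1 : 1 ≤ R := by
    rw [hR, hlog4]; exact Real.one_le_exp (by positivity)
  have hR2 : R ≤ Real.exp (90 * u ^ 2) := by
    rw [hR, hlog4]
    apply Real.exp_le_exp.mpr
    calc 18 * (u + 1) * (Real.log 2 + u) ≤ 18 * (5 / 2 * u) * (2 * u) := by
          gcongr <;> linarith
      _ = 90 * u ^ 2 := by ring
  have hlam8 : 8 * D ≤ lam := by rw [hlam]; nlinarith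
  have hlam1 : 1 ≤ lam := by linarith
  have hlam2 : lam ≤ 48 * D ^ 3 * (1 + L) := by
    rw [hlam]
    have h : 11 * D ^ 2 + 1 + L ≤ 12 * D ^ 2 * (1 + L) := by nlinarith
    calc 4 * D * (11 * D ^ 2 + 1 + L) ≤ 4 * D * (12 * D ^ 2 * (1 + L)) := by gcongr
      _ = 48 * D ^ 3 * (1 + L) := by ring
  have hkey := Num.key D u w L R lam hd1 hu23 hDu hw0 hL hR1 hR2 hlam1 hlam2
  rw [← hvw] at hkey
  have hK1 := Num.one_le_Kb D R lam hd1 hR1 hlam1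
  generalize hK : Kb D (D * R) lam = K at *
  obtain ⟨B, hB⟩ : ∃ B, B = v ^ 3 / (2 ^ 18 * D ^ 9) := ⟨_, rfl⟩
  rw [← hB] at hkey ⊢
  have hB0 : 0 < B := by rw [hB]; positivity
  have hB1 : B ≤ 1 := by
    rw [hB, div_le_one (by positivity)]
    have h1 : v ^ 3 ≤ 1 := pow_le_one₀ hv0.le hv1
    have h2 : 1 ≤ D ^ 9 := one_le_pow₀ hd1
    nlinarith
  have hK0 : 0 < K := by linarith
  have hKB : 16 ≤ 16 * K / B := by
    rw [le_div_iff₀ hB0]; nlinarith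
  have hKB0 : 0 < 16 * K / B := by positivity
  refine ⟨1 / (18 * (u + 1)), R, lam, 2 * Real.log (16 * K / B), by positivity, ?_, hR1, ?_, ?_,
    hlam8, ?_, ?_⟩
  · rw [div_le_one (by positivity)]; linarith
  · rw [hR, ← Real.exp_mul]
    have : 18 * (u + 1) * Real.log (4 * D) * (1 / (18 * (u + 1))) = Real.log (4 * D) := by
      field_simp
    rw [this, Real.exp_log (by positivity)]
  · have h : Real.log 2 ≤ Real.log (16 * K / B) := Real.log_le_log (by norm_num) (by linarith)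
    linarith [Real.log_two_gt_d9]
  · have h1 : lam / (4 * D) = 8 * D ^ 2 + L + (3 * D ^ 2 + 1) := by
      rw [hlam]; field_simp; ring
    rw [h1, Real.exp_add (8 * D ^ 2 + L), Real.exp_add (8 * D ^ 2), Real.exp_neg, div_inv_eq_mul]
    have h2 : 8 * D ^ 2 ≤ Real.exp (8 * D ^ 2) := by linarith [Real.add_one_le_exp (8 * D ^ 2)]
    calc 8 * (D ^ 2 * Real.exp L) * Real.exp (3 * D ^ 2 + 1)
        = 8 * D ^ 2 * Real.exp L * Real.exp (3 * D ^ 2 + 1) := by ring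
      _ ≤ Real.exp (8 * D ^ 2) * Real.exp L * Real.exp (3 * D ^ 2 + 1) := by gcongr
  · rw [hK]
    have h1 : 9 * (2 * Real.log (16 * K / B)) * (1 / (18 * (u + 1))) * (u + 1) =
        Real.log (16 * K / B) := by
      field_simp; ring
    have h2 : Real.exp (-(2 * Real.log (16 * K / B))) = ((16 * K / B) ^ 2)⁻¹ := by
      rw [Real.exp_neg, two_mul, Real.exp_add, Real.exp_log hKB0, sq]
    have h3 : Real.exp (-L) ^ (1 / (18 * (u + 1))) ≤ Real.exp (-(L / (45 * u))) := by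
      rw [← Real.exp_mul]
      apply Real.exp_le_exp.mpr
      have : L / (45 * u) ≤ L / (18 * (u + 1)) := by
        apply div_le_div_of_nonneg_left hL0 (by positivity); linarith
      have h' : -L * (1 / (18 * (u + 1))) = -(L / (18 * (u + 1))) := by ring
      rw [h']; linarith
    rw [h1, h2, Real.exp_log hKB0]
    generalize Real.exp (-L) ^ (1 / (18 * (u + 1))) = e at *
    generalize Real.exp (-(L / (45 * u))) = e' at *
    have h4 : 160 * D ^ 2 * K * e < B ^ 2 := lt_of_le_of_lt (by gcongr) hkey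
    have h5 : 16 * K / B * (5 * D ^ 2 * e + 8 * K * ((16 * K / B) ^ 2)⁻¹) =
        (160 * D ^ 2 * K * e + B ^ 2) / (2 * B) := by
      field_simp; ring
    rw [h5, div_lt_iff₀ (by positivity)]
    nlinarith

end Pool.Agent.MP_9e8696_an.H8
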