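import Mathlib
import Pool.Agent.MP_9e8696_an.H8.Step
import Pool.Agent.MP_9e8696_an.H8.Iter
import Pool.Agent.MP_9e8696_an.H8.Num

/-!
The quasi-polynomial influence bound in coefficient form.
-/

set_option linter.unusedSectionVars false

namespace Pool.Agent.MP_9e8696_an.H8

open Finset H67
open scoped BigOperators

variable {ι : Type*} [Fintype ι] [DecidableEq ι]

lemma main_coeff_quasi [Nonempty ι] {a : Finset ι → ℝ} {d : ℕ} (hd : 1 ≤ d) (ha : DegLe a d)
    (hb : Bdd a) :
    ∃ j, var a ^ (10 ^ 6 * Real.log (2 * d)) * Real.exp (-(10 ^ 6 * Real.log (2 * d) ^ 3)) ≤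
      inf a j := by
  have hd' : (1 : ℝ) ≤ d := by exact_mod_cast hd
  have hv0 : 0 ≤ var a := sum_nonneg fun S _ => by split_ifs <;> positivity
  have hv1 : var a ≤ 1 := (var_le_nrm a).trans (nrm_le_one hb)
  have hu : 2 / 3 ≤ Real.log (2 * d) := by
    have h1 := Real.log_two_gt_d9
    have h2 : Real.log 2 ≤ Real.log (2 * d) := Real.log_le_log (by norm_num) (by linarith)
    linarith
  rcases hv0.eq_or_lt with h0 | hpos
  · refine ⟨Classical.arbitrary ι, ?_⟩
    rw [← h0, Real.zero_rpow (by positivity), zero_mul]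
    exact inf_nonneg a _
  set η := var a ^ (10 ^ 6 * Real.log (2 * d)) * Real.exp (-(10 ^ 6 * Real.log (2 * d) ^ 3))
    with hη
  have hη0 : 0 < η := mul_pos (Real.rpow_pos_of_pos hpos _) (Real.exp_pos _)
  by_contra hcon
  push Not at hcon
  by_cases hn : 2 ≤ Fintype.card ι
  · obtain ⟨β, R, lam, l, hβ0, hβ1, hR, hRβ, hl, hlam, hT, hfin⟩ := num d hd (var a) hpos hv1
    rw [← hη] at hT hfin
    have hK : 0 ≤ Kb d (d * R) lam := by unfold Kb; positivity
    have hηb : 0 < η ^ β := Real.rpow_pos_of_pos hη0 β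
    have hit := iter hd hn β (9 * l * β)
      (4 * (d : ℝ) ^ 2 * η ^ β + 8 * Kb d (d * R) lam * Real.exp (-l)) hβ0 hβ1 (by positivity)
      (by positivity) (fun e he hbe => by
        refine (step hd he hbe β R η lam l hβ0 hβ1 hR hRβ hη0 hl hlam hT).trans ?_
        have h1 : 0 ≤ 4 * (d : ℝ) ^ 2 * η ^ β + 8 * Kb d (d * R) lam * Real.exp (-l) := by
          positivity
        have h2 := mul_nonneg hβ0.le (mul_nonneg (by linarith : 0 ≤ 9 * l - 1) h1)
        nlinarith) ha hb
    have hP : Psi β a ≤ (d : ℝ) ^ 2 * η ^ β := by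
      unfold Psi
      calc ∑ j, inf a j ^ (1 + β) ≤ ∑ j, inf a j * η ^ β := by
            refine sum_le_sum fun j _ => ?_
            rw [pow_split _ β (inf_nonneg a j) hβ0]
            exact mul_le_mul_of_nonneg_left
              (Real.rpow_le_rpow (inf_nonneg a j) (hcon j).le hβ0.le) (inf_nonneg a j)
        _ = (∑ j, inf a j) * η ^ β := by rw [sum_mul]
        _ ≤ (d : ℝ) ^ 2 * η ^ β :=
            mul_le_mul_of_nonneg_right ((sum_inf_le_deg ha hb).trans (by nlinarith)) hηb.le
    have h3 := mul_le_mul_of_nonneg_left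
      (show Psi β a + (4 * (d : ℝ) ^ 2 * η ^ β + 8 * Kb d (d * R) lam * Real.exp (-l)) ≤
        5 * (d : ℝ) ^ 2 * η ^ β + 8 * Kb d (d * R) lam * Real.exp (-l) by linarith)
      (Real.exp_pos (9 * l * β * (Real.log (2 * d) + 1))).le
    linarith
  · have h1 := out_le a ∅
    simp only [subset_empty, notMem_empty, if_false] at h1
    have h2 : ∑ j, inf a j ≤ Fintype.card ι * η := by
      calc ∑ j, inf a j ≤ ∑ _j : ι, η := sum_le_sum fun j _ => (hcon j).le
        _ = Fintype.card ι * η := by simp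
    have h3 : (Fintype.card ι : ℝ) ≤ 1 := by exact_mod_cast (by omega : Fintype.card ι ≤ 1)
    have h4 : var a ^ (10 ^ 6 * Real.log (2 * d)) ≤ var a := by
      conv_rhs => rw [← Real.rpow_one (var a)]
      exact Real.rpow_le_rpow_of_exponent_ge hpos hv1 (by linarith)
    have h5 : Real.exp (-(10 ^ 6 * Real.log (2 * d) ^ 3)) < 1 := by
      rw [Real.exp_lt_one_iff]
      have : 0 < Real.log (2 * d) ^ 3 := by positivity
      linarith
    have h6 : η < var a :=
      calc η ≤ var a * Real.exp (-(10 ^ 6 * Real.log (2 * d) ^ 3)) :=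
            mul_le_mul_of_nonneg_right h4 (Real.exp_pos _).le
        _ < var a := mul_lt_of_lt_one_right hpos h5
    have h7 : var a ≤ ∑ j, inf a j := h1
    nlinarith

end Pool.Agent.MP_9e8696_an.H8
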