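import Mathlib
import Pool.Agent.MP_9e8696_an.H8.Num

/-!
Choice of the parameters for the influence bound with exponent of order log squared.
-/

namespace Pool.Agent.MP_9e8696_an.H8

namespace Num2

lemma fin (E D P K q : ℝ) (hE : 2 ≤ E) (hD0 : 0 ≤ D) (hD : D ≤ E) (hP : P ≤ E ^ 10)
    (hK0 : 0 ≤ K) (hK : K ≤ E ^ 425) (hq0 : 0 ≤ q) (hq : q ≤ (E ^ 100)⁻¹) :
    8 * D ^ 3 * q + P * (D * E ^ 75 * (5 * D ^ 2 / E ^ 100 + 8 * K * (E ^ 600)⁻¹)) <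
      E⁻¹ / 4 := by
  have hE0 : 0 < E := by linarith
  have hE1 : 1 ≤ E := by linarith
  have h8 : (8 : ℝ) ≤ E ^ 3 := by
    calc (8 : ℝ) = 2 ^ 3 := by norm_num
      _ ≤ E ^ 3 := by gcongr
  have h5 : (5 : ℝ) ≤ E ^ 3 := by linarith
  have h256 : (256 : ℝ) ≤ E ^ 8 := by
    calc (256 : ℝ) = 2 ^ 8 := by norm_num
      _ ≤ E ^ 8 := by gcongr
  have a1 : (E ^ 94)⁻¹ ≤ (E ^ 9)⁻¹ :=
    inv_anti₀ (by positivity) (pow_le_pow_right₀ hE1 (by norm_num))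
  have a2 : (E ^ 86)⁻¹ ≤ (E ^ 9)⁻¹ :=
    inv_anti₀ (by positivity) (pow_le_pow_right₀ hE1 (by norm_num))
  have a3 : 256 * (E ^ 9)⁻¹ ≤ E⁻¹ := by
    calc 256 * (E ^ 9)⁻¹ ≤ E ^ 8 * (E ^ 9)⁻¹ := by gcongr
      _ = E⁻¹ := by field_simp
  have a4 : 0 < (E ^ 9)⁻¹ := by positivity
  calc 8 * D ^ 3 * q + P * (D * E ^ 75 * (5 * D ^ 2 / E ^ 100 + 8 * K * (E ^ 600)⁻¹))
      ≤ E ^ 3 * E ^ 3 * (E ^ 100)⁻¹ + E ^ 10 * (E * E ^ 75 *
          (E ^ 3 * E ^ 2 / E ^ 100 + E ^ 3 * E ^ 425 * (E ^ 600)⁻¹)) := by gcongr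
    _ = (E ^ 94)⁻¹ + (E ^ 9)⁻¹ + (E ^ 86)⁻¹ := by field_simp; ring
    _ < E⁻¹ / 4 := by linarith

end Num2

lemma num2 (d : ℕ) (hd : 1 ≤ d) (v : ℝ) (hv0 : 0 < v) (hv1 : v ≤ 1) (η : ℝ)
    (hη : η = (v / (2 * d)) ^ (10 ^ 7 * Real.log (2 * d))) :
    ∃ (R lam l : ℝ) (P : ℕ), 1 ≤ R ∧ 1 ≤ l ∧ 8 * (d : ℝ) ≤ lam ∧
      8 * ((d : ℝ) ^ 2 / η) * Real.exp (3 * (d : ℝ) ^ 2 + 1) ≤ Real.exp (lam / (4 * d)) ∧
      128 * (Real.log (2 * d) + 1) ≤ P ∧ 128 * η < v ∧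
      8 * (d : ℝ) ^ 3 * Real.sqrt (η * R ^ P) + P * (d * Real.exp (l / 8) *
        (5 * (d : ℝ) ^ 2 / R + 8 * Kb d (d * (2 * R)) lam * Real.exp (-l))) < v / (8 * d) := by
  have hd1 : (1 : ℝ) ≤ d := by exact_mod_cast hd
  generalize (d : ℝ) = D at *
  have hD0 : 0 < D := by linarith
  obtain ⟨u, hu⟩ : ∃ u, u = Real.log (2 * D) := ⟨_, rfl⟩
  obtain ⟨w, hw⟩ : ∃ w, w = -Real.log v := ⟨_, rfl⟩
  rw [← hu] at hη ⊢
  have hl2 : Real.log 2 ≤ u := by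
    rw [hu]; exact Real.log_le_log (by norm_num) (by linarith)
  have hu23 : 2 / 3 ≤ u := by linarith [Real.log_two_gt_d9]
  have hu0 : 0 < u := by linarith
  have hw0 : 0 ≤ w := by rw [hw]; linarith [Real.log_nonpos hv0.le hv1]
  have hvw : v = Real.exp (-w) := by rw [hw, neg_neg, Real.exp_log hv0]
  have hDu : Real.exp u = 2 * D := by rw [hu, Real.exp_log (by linarith)]
  obtain ⟨s, hs⟩ : ∃ s, s = u + w := ⟨_, rfl⟩
  have hus : u ≤ s := by linarith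
  have hs0 : 0 < s := by linarith
  have hvs : v / (2 * D) = Real.exp (-s) := by
    rw [hvw, ← hDu, ← Real.exp_sub, hs]
    congr 1
    ring
  obtain ⟨L, hL⟩ : ∃ L, L = 10 ^ 7 * u * s := ⟨_, rfl⟩
  have hL0 : 0 ≤ L := by rw [hL]; positivity
  have heta : η = Real.exp (-L) := by
    rw [hη, hvs, ← Real.exp_mul, hL]
    congr 1
    ring
  obtain ⟨E, hE⟩ : ∃ E, E = Real.exp s := ⟨_, rfl⟩
  have hDE2 : 2 * D ≤ E := by rw [hE, ← hDu]; exact Real.exp_le_exp.mpr hus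
  have hE2 : 2 ≤ E := by linarith
  have hE1 : 1 ≤ E := by linarith
  have hE0 : 0 < E := by linarith
  have hDE : D ≤ E := by linarith
  have hsE : s ≤ E := by rw [hE]; linarith [Real.add_one_le_exp s]
  have huE : u ≤ E := hus.trans hsE
  have hpow : ∀ n : ℕ, (2 : ℝ) ^ n ≤ E ^ n := fun n => by gcongr
  have hEn : ∀ n : ℕ, Real.exp (n * s) = E ^ n := fun n => by rw [hE, Real.exp_nat_mul]
  obtain ⟨lam, hlam⟩ : ∃ lam, lam = 4 * D * (11 * D ^ 2 + 1 + L) := ⟨_, rfl⟩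
  have hD2 : 1 ≤ D ^ 2 := one_le_pow₀ hd1
  have hlam8 : 8 * D ≤ lam := by rw [hlam]; nlinarith
  have hlam1 : 1 ≤ lam := by linarith
  have hlam2 : lam ≤ 48 * D ^ 3 * (1 + L) := by
    rw [hlam]
    have h : 11 * D ^ 2 + 1 + L ≤ 12 * D ^ 2 * (1 + L) := by nlinarith
    calc 4 * D * (11 * D ^ 2 + 1 + L) ≤ 4 * D * (12 * D ^ 2 * (1 + L)) := by gcongr
      _ = 48 * D ^ 3 * (1 + L) := by ring
  have hL1 : 1 + L ≤ E ^ 26 := by
    have h1 : L ≤ 10 ^ 7 * E * E := by rw [hL]; gcongr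
    have h2 : 1 ≤ E * E := by nlinarith
    have h3 := hpow 24
    calc 1 + L ≤ 2 ^ 24 * (E * E) := by nlinarith
      _ ≤ E ^ 24 * (E * E) := by gcongr
      _ = E ^ 26 := by ring
  have hlam3 : lam ≤ E ^ 35 := by
    have h3 : (48 : ℝ) ≤ E ^ 6 := le_trans (by norm_num) (hpow 6)
    calc lam ≤ 48 * D ^ 3 * (1 + L) := hlam2
      _ ≤ E ^ 6 * E ^ 3 * E ^ 26 := by gcongr
      _ = E ^ 35 := by ring
  have hR1 : 1 ≤ E ^ 100 := one_le_pow₀ hE1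
  have hR2 : 1 ≤ 2 * E ^ 100 := by linarith
  have hK0 : 0 ≤ Kb D (D * (2 * E ^ 100)) lam :=
    zero_le_one.trans (Num.one_le_Kb D _ lam hd1 hR2 hlam1)
  have hK : Kb D (D * (2 * E ^ 100)) lam ≤ E ^ 425 := by
    have h3 : (704 : ℝ) ≤ E ^ 10 := le_trans (by norm_num) (hpow 10)
    calc Kb D (D * (2 * E ^ 100)) lam ≤ 176 * D ^ 5 * (2 * E ^ 100) ^ 2 * lam ^ 6 :=
          Num.Kb_le D _ lam hd1 hR2 hlam1
      _ = 704 * D ^ 5 * (E ^ 100) ^ 2 * lam ^ 6 := by ring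
      _ ≤ E ^ 10 * E ^ 5 * (E ^ 100) ^ 2 * (E ^ 35) ^ 6 := by gcongr
      _ = E ^ 425 := by ring
  obtain ⟨P, hP⟩ : ∃ P : ℕ, P = ⌈128 * (u + 1)⌉₊ := ⟨_, rfl⟩
  have hP1 : 128 * (u + 1) ≤ P := by rw [hP]; exact Nat.le_ceil _
  have hP2 : (P : ℝ) ≤ 322 * u := by
    have : (P : ℝ) < 128 * (u + 1) + 1 := by rw [hP]; exact Nat.ceil_lt_add_one (by positivity)
    linarith
  have hP3 : (P : ℝ) ≤ E ^ 10 := by
    have h3 : (322 : ℝ) ≤ E ^ 9 := le_trans (by norm_num) (hpow 9)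
    calc (P : ℝ) ≤ 322 * u := hP2
      _ ≤ E ^ 9 * E := by gcongr
      _ = E ^ 10 := by ring
  have hus2 : 2 / 3 * s ≤ u * s := by gcongr
  refine ⟨E ^ 100, lam, 600 * s, P, hR1, by linarith, hlam8, ?_, hP1, ?_, ?_⟩
  · have h1 : lam / (4 * D) = 8 * D ^ 2 + L + (3 * D ^ 2 + 1) := by
      rw [hlam]; field_simp; ring
    rw [heta, h1, Real.exp_add (8 * D ^ 2 + L), Real.exp_add (8 * D ^ 2), Real.exp_neg,
      div_inv_eq_mul]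
    have h2 : 8 * D ^ 2 ≤ Real.exp (8 * D ^ 2) := by linarith [Real.add_one_le_exp (8 * D ^ 2)]
    calc 8 * (D ^ 2 * Real.exp L) * Real.exp (3 * D ^ 2 + 1)
        = 8 * D ^ 2 * Real.exp L * Real.exp (3 * D ^ 2 + 1) := by ring
      _ ≤ Real.exp (8 * D ^ 2) * Real.exp L * Real.exp (3 * D ^ 2 + 1) := by gcongr
  · have h1 : (128 : ℝ) ≤ Real.exp ((7 : ℕ) * s) := by
      rw [hEn]; exact le_trans (by norm_num) (hpow 7)
    rw [heta, hvw]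
    calc 128 * Real.exp (-L) ≤ Real.exp ((7 : ℕ) * s) * Real.exp (-L) := by gcongr
      _ = Real.exp ((7 : ℕ) * s + -L) := (Real.exp_add _ _).symm
      _ < Real.exp (-w) := by
        apply Real.exp_lt_exp.mpr
        push_cast
        nlinarith
  · have e1 : Real.exp (600 * s / 8) = E ^ 75 := by
      rw [← hEn]; congr 1; push_cast; ring
    have e2 : Real.exp (-(600 * s)) = (E ^ 600)⁻¹ := by
      rw [← hEn, Real.exp_neg]; norm_num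
    have e3 : v / (8 * D) = E⁻¹ / 4 := by
      rw [hE, ← Real.exp_neg, ← hvs]; field_simp; ring
    have e4 : Real.sqrt (η * (E ^ 100) ^ P) ≤ (E ^ 100)⁻¹ := by
      apply Real.sqrt_le_iff.mpr ⟨by positivity, ?_⟩
      rw [heta, ← hEn 100, ← Real.exp_nat_mul, ← Real.exp_add, ← Real.exp_neg,
        ← Real.exp_nat_mul]
      apply Real.exp_le_exp.mpr
      have h1 : (P : ℝ) * s ≤ 322 * u * s := by gcongr
      push_cast
      nlinarith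
    rw [e1, e2, e3]
    exact Num2.fin E D P _ _ hE2 hD0.le hDE hP3 hK0 hK (Real.sqrt_nonneg _) e4

end Pool.Agent.MP_9e8696_an.H8
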