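import Mathlib
import Pool.Agent.MP_9e8696_an.H8.Cap
import Pool.Agent.MP_9e8696_an.H8.Num2

/-!
The influence bound with a logarithmic exponent in coefficient form.
-/

set_option linter.unusedSectionVars false

namespace Pool.Agent.MP_9e8696_an.H8

open Finset H67
open scoped BigOperators

variable {ι : Type*} [Fintype ι] [DecidableEq ι]

lemma main_coeff_log [Nonempty ι] {a : Finset ι → ℝ} {d : ℕ} (hd : 1 ≤ d) (ha : DegLe a d)
    (hb : Bdd a) :
    ∃ j, (var a / (2 * d)) ^ (10 ^ 7 * Real.log (2 * d)) ≤ inf a j := by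
  have hd' : (1 : ℝ) ≤ d := by exact_mod_cast hd
  have hv0 : 0 ≤ var a := sum_nonneg fun S _ => by split_ifs <;> positivity
  have hv1 : var a ≤ 1 := (var_le_nrm a).trans (nrm_le_one hb)
  have hu : 2 / 3 ≤ Real.log (2 * d) := by
    have h1 := Real.log_two_gt_d9
    have h2 : Real.log 2 ≤ Real.log (2 * d) := Real.log_le_log (by norm_num) (by linarith)
    linarith
  rcases hv0.eq_or_lt with h0 | hpos
  · refine ⟨Classical.arbitrary ι, ?_⟩
    rw [← h0, zero_div, Real.zero_rpow (by positivity)]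
    exact inf_nonneg a _
  set η := (var a / (2 * d)) ^ (10 ^ 7 * Real.log (2 * d)) with hη
  have hη0 : 0 < η := Real.rpow_pos_of_pos (by positivity) _
  by_contra hcon
  push Not at hcon
  obtain ⟨R, lam, l, P, hR, hl, hlam, hT, hP, hsmall, hfin⟩ := num2 d hd (var a) hpos hv1 η hη
  by_cases hn : 128 ≤ Fintype.card ι
  · obtain ⟨N, hN1, hN2⟩ := window hd (by omega : 2 ≤ Fintype.card ι) ha
    have hNP : N ≤ P * (Fintype.card ι / 64) := by
      have e1 : (Fintype.card ι : ℝ) ≤ 128 * ((Fintype.card ι / 64 : ℕ) : ℝ) := by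
        exact_mod_cast (by omega : Fintype.card ι ≤ 128 * (Fintype.card ι / 64))
      have e2 : (0 : ℝ) ≤ ((Fintype.card ι / 64 : ℕ) : ℝ) := Nat.cast_nonneg _
      have e3 : (N : ℝ) ≤ P * ((Fintype.card ι / 64 : ℕ) : ℝ) := by
        have e4 := mul_le_mul_of_nonneg_right e1 (by linarith : 0 ≤ Real.log (2 * d) + 1)
        have e5 := mul_le_mul_of_nonneg_right hP e2
        nlinarith
      exact_mod_cast e3
    have := phases hd (by omega : 2 ≤ Fintype.card ι) R η lam l hR hη0 hl hlam hT P N hNP η le_rfl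
      a ha hb fun j => (hcon j).le
    linarith
  · have h1 := out_le a ∅
    simp only [subset_empty, notMem_empty, if_false] at h1
    have h2 : ∑ j, inf a j ≤ Fintype.card ι * η := by
      calc ∑ j, inf a j ≤ ∑ _j : ι, η := sum_le_sum fun j _ => (hcon j).le
        _ = Fintype.card ι * η := by simp
    have h3 : (Fintype.card ι : ℝ) ≤ 128 := by exact_mod_cast (by omega : Fintype.card ι ≤ 128)
    have h7 : var a ≤ ∑ j, inf a j := h1
    nlinarith

end Pool.Agent.MP_9e8696_an.H8
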