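import Mathlib
import Pool.Agent.MP_9e8696_an.H8.Defs

/-!
Growth of a bounded polynomial outside the cube.
-/

set_option linter.unusedSectionVars false

namespace Pool.Agent.MP_9e8696_an.H8

open Finset H67
open scoped BigOperators

variable {ι : Type*} [Fintype ι] [DecidableEq ι]

lemma growth {a : Finset ι → ℝ} {d : ℕ} (hd : 1 ≤ d) (ha : DegLe a d) (hb : Bdd a)
    (r : ℝ) (hr : 1 ≤ r) (w : ι → ℝ) (hw : ∀ i, |w i| ≤ r) :
    |F a w| ≤ (d + 1) * (2 * (d : ℝ) ^ 2 * r) ^ d := by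
  have hd' : (1 : ℝ) ≤ d := by exact_mod_cast hd
  have hr0 : 0 < r := by linarith
  have hlev : ∀ k, |∑ S, if S.card = k then a S * ∏ i ∈ S, (w i / r) else 0| ≤
      1 * (2 * (d : ℝ) ^ 2) ^ k := by
    intro k
    refine extract a d ha (fun i => w i / r) 1 one_pos (fun u hu => hb _ fun i => ?_) k
    rw [abs_mul, abs_of_nonneg hu.1, abs_div, abs_of_pos hr0]
    have h1 : |w i| / r ≤ 1 := (div_le_one hr0).2 (hw i)
    exact mul_le_one₀ hu.2 (by positivity) h1
  have hF : F a w = ∑ k ∈ range (d + 1),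
      r ^ k * ∑ S, if S.card = k then a S * ∏ i ∈ S, (w i / r) else 0 := by
    simp only [mul_sum]
    rw [sum_comm]
    unfold F
    refine sum_congr rfl fun S _ => ?_
    by_cases hS : d < S.card
    · simp [ha S hS]
    · rw [sum_eq_single S.card]
      · rw [if_pos rfl, prod_div_distrib, prod_const]
        field_simp
      · intro k _ hk
        rw [if_neg (Ne.symm hk), mul_zero]
      · intro h
        exact absurd (mem_range.2 (by omega)) h
  rw [hF]
  refine (abs_sum_le_sum_abs _ _).trans ?_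
  have h1 : ∀ k ∈ range (d + 1),
      |r ^ k * ∑ S, if S.card = k then a S * ∏ i ∈ S, (w i / r) else 0| ≤
        (2 * (d : ℝ) ^ 2 * r) ^ d := by
    intro k hk
    rw [abs_mul, abs_of_pos (pow_pos hr0 k)]
    calc r ^ k * |∑ S, if S.card = k then a S * ∏ i ∈ S, (w i / r) else 0|
        ≤ r ^ k * (1 * (2 * (d : ℝ) ^ 2) ^ k) := mul_le_mul_of_nonneg_left (hlev k) (by positivity)
      _ = (2 * (d : ℝ) ^ 2 * r) ^ k := by rw [mul_pow _ r]; ring
      _ ≤ (2 * (d : ℝ) ^ 2 * r) ^ d :=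
          pow_le_pow_right₀ (by nlinarith) (by have := mem_range.1 hk; omega)
  refine (sum_le_sum h1).trans (le_of_eq ?_)
  simp

lemma tail_point {a : Finset ι → ℝ} {d : ℕ} (hd : 1 ≤ d) (ha : DegLe a d) (hb : Bdd a)
    (lam : ℝ) (hlam : 8 * (d : ℝ) ≤ lam) (u s : ι → ℝ) (hu : ∀ i, |u i| ≤ 1 - 1 / (4 * (d : ℝ))) :
    |F a (fun i => u i + s i)| ≤
      1 + 4 * Real.exp (3 * (d : ℝ) ^ 2 + 1 - lam / (4 * d)) * ∑ i, (Real.cosh (lam * s i) - 1) := by
  have hd' : (1 : ℝ) ≤ d := by exact_mod_cast hd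
  have hc0 : ∀ i, 0 ≤ Real.cosh (lam * s i) - 1 := fun i => by
    linarith [Real.one_le_cosh (lam * s i)]
  have hsum0 : 0 ≤ ∑ i, (Real.cosh (lam * s i) - 1) := sum_nonneg fun i _ => hc0 i
  set κ : ℝ := 1 / (4 * (d : ℝ)) with hκ
  have hκ0 : 0 < κ := by positivity
  by_cases hs : ∀ i, |s i| ≤ κ
  · have h1 : |F a (fun i => u i + s i)| ≤ 1 := hb _ fun i => by
      have := abs_add_le (u i) (s i)
      linarith [hu i, hs i]
    have : 0 ≤ 4 * Real.exp (3 * (d : ℝ) ^ 2 + 1 - lam / (4 * d)) *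
        ∑ i, (Real.cosh (lam * s i) - 1) := by positivity
    linarith
  · push Not at hs
    obtain ⟨i0, hi0⟩ := hs
    obtain ⟨i, -, hi⟩ := exists_max_image univ (fun i => |s i|) ⟨i0, mem_univ _⟩
    set σ := |s i| with hσ
    have hσκ : κ < σ := hi0.trans_le (hi i0 (mem_univ _))
    have hσ0 : 0 < σ := hκ0.trans hσκ
    have h1 := growth hd ha hb (1 + σ) (by linarith) (fun i => u i + s i) (fun k => by
      have := abs_add_le (u k) (s k)
      linarith [hu k, hi k (mem_univ _)])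
    have h2 : ((d : ℝ) + 1) * (2 * (d : ℝ) ^ 2 * (1 + σ)) ^ d ≤
        Real.exp (3 * (d : ℝ) ^ 2 + d * σ) := by
      have e1 : (d : ℝ) + 1 ≤ Real.exp ((d : ℝ) ^ 2) :=
        le_trans (by nlinarith) (Real.add_one_le_exp _)
      have e2 : 2 * (d : ℝ) ^ 2 ≤ Real.exp (2 * d) := by
        have := Real.quadratic_le_exp_of_nonneg (x := 2 * (d : ℝ)) (by linarith)
        nlinarith
      have e3 : 1 + σ ≤ Real.exp σ := by linarith [Real.add_one_le_exp σ]
      have e4 : 2 * (d : ℝ) ^ 2 * (1 + σ) ≤ Real.exp (2 * d + σ) := by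
        rw [Real.exp_add]
        exact mul_le_mul e2 e3 (by linarith) (Real.exp_pos _).le
      calc ((d : ℝ) + 1) * (2 * (d : ℝ) ^ 2 * (1 + σ)) ^ d
          ≤ Real.exp ((d : ℝ) ^ 2) * Real.exp (2 * d + σ) ^ d :=
            mul_le_mul e1 (pow_le_pow_left₀ (by positivity) e4 d) (by positivity)
              (Real.exp_pos _).le
        _ = Real.exp (3 * (d : ℝ) ^ 2 + d * σ) := by
            rw [← Real.exp_nat_mul, ← Real.exp_add]; congr 1; ring
    have hlk : lam / (4 * d) = lam * κ := by rw [hκ]; ring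
    have hdk : (d : ℝ) * κ = 1 / 4 := by rw [hκ]; field_simp
    have hl0 : 0 < lam := by linarith
    have hls : 2 ≤ lam * σ := by nlinarith
    have h3 : Real.exp (lam * σ) / 4 ≤ Real.cosh (lam * s i) - 1 := by
      have e1 : Real.cosh (lam * s i) = Real.cosh (lam * σ) := by
        rw [← Real.cosh_abs, abs_mul, abs_of_pos hl0]
      rw [e1, Real.cosh_eq]
      have e2 := Real.quadratic_le_exp_of_nonneg (x := lam * σ) (by linarith)
      have e3 := Real.exp_pos (-(lam * σ))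
      nlinarith
    have h4 : Real.cosh (lam * s i) - 1 ≤ ∑ i, (Real.cosh (lam * s i) - 1) :=
      single_le_sum (f := fun i => Real.cosh (lam * s i) - 1) (fun k _ => hc0 k) (mem_univ i)
    have h5 : Real.exp (3 * (d : ℝ) ^ 2 + d * σ) ≤
        Real.exp (3 * (d : ℝ) ^ 2 + 1 - lam / (4 * d)) * Real.exp (lam * σ) := by
      rw [← Real.exp_add, hlk]
      apply Real.exp_le_exp.2
      nlinarith
    have h6 := mul_le_mul_of_nonneg_left (h3.trans h4)
      (by positivity : 0 ≤ 4 * Real.exp (3 * (d : ℝ) ^ 2 + 1 - lam / (4 * d)))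
    linarith

end Pool.Agent.MP_9e8696_an.H8
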